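import Mathlib

/-!
Expectation over a `p`-random subset of a finite set of naturals, as a finite sum.
-/

namespace Pool.Agent.MP_a40b8c_co

open Finset

/-- Expectation of `F` over a `p`-random subset of `I`. -/
noncomputable def Ex (p : ℝ) (I : Finset ℕ) (F : Finset ℕ → ℝ) : ℝ :=
  ∑ A ∈ I.powerset, p ^ A.card * (1 - p) ^ (I.card - A.card) * F A

variable {p : ℝ}

@[simp] lemma Ex_empty (F : Finset ℕ → ℝ) : Ex p ∅ F = F ∅ := by
  simp [Ex]

lemma Ex_insert {I : Finset ℕ} {m : ℕ} (hm : m ∉ I) (F : Finset ℕ → ℝ) :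
    Ex p (insert m I) F = (1 - p) * Ex p I F + p * Ex p I (fun A => F (insert m A)) := by
  unfold Ex
  rw [Finset.sum_powerset_insert hm, Finset.mul_sum, Finset.mul_sum]
  congr 1
  · apply Finset.sum_congr rfl
    intro A hA
    rw [Finset.mem_powerset] at hA
    have h1 : A.card ≤ I.card := Finset.card_le_card hA
    rw [Finset.card_insert_of_notMem hm]
    have : I.card + 1 - A.card = (I.card - A.card) + 1 := by omega
    rw [this, pow_succ]
    ring
  · apply Finset.sum_congr rfl
    intro A hA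
    rw [Finset.mem_powerset] at hA
    have hmA : m ∉ A := fun h => hm (hA h)
    rw [Finset.card_insert_of_notMem hm, Finset.card_insert_of_notMem hmA]
    have : I.card + 1 - (A.card + 1) = I.card - A.card := by omega
    rw [this, pow_succ]
    ring

lemma Ex_congr {I : Finset ℕ} {F G : Finset ℕ → ℝ} (h : ∀ A ⊆ I, F A = G A) :
    Ex p I F = Ex p I G := by
  unfold Ex
  apply Finset.sum_congr rfl
  intro A hA
  rw [h A (Finset.mem_powerset.1 hA)]

lemma Ex_mono (hp0 : 0 ≤ p) (hp1 : p ≤ 1) {I : Finset ℕ} {F G : Finset ℕ → ℝ}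
    (h : ∀ A ⊆ I, F A ≤ G A) : Ex p I F ≤ Ex p I G := by
  unfold Ex
  apply Finset.sum_le_sum
  intro A hA
  apply mul_le_mul_of_nonneg_left (h A (Finset.mem_powerset.1 hA))
  have : 0 ≤ 1 - p := by linarith
  positivity

lemma Ex_nonneg (hp0 : 0 ≤ p) (hp1 : p ≤ 1) {I : Finset ℕ} {F : Finset ℕ → ℝ}
    (h : ∀ A ⊆ I, 0 ≤ F A) : 0 ≤ Ex p I F := by
  unfold Ex
  apply Finset.sum_nonneg
  intro A hA
  have : 0 ≤ 1 - p := by linarith
  have := h A (Finset.mem_powerset.1 hA)
  positivity

lemma Ex_add (I : Finset ℕ) (F G : Finset ℕ → ℝ) :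
    Ex p I (fun A => F A + G A) = Ex p I F + Ex p I G := by
  unfold Ex
  rw [← Finset.sum_add_distrib]
  apply Finset.sum_congr rfl
  intro A _
  ring

lemma Ex_sub (I : Finset ℕ) (F G : Finset ℕ → ℝ) :
    Ex p I (fun A => F A - G A) = Ex p I F - Ex p I G := by
  unfold Ex
  rw [← Finset.sum_sub_distrib]
  apply Finset.sum_congr rfl
  intro A _
  ring

lemma Ex_mul_left (I : Finset ℕ) (c : ℝ) (F : Finset ℕ → ℝ) :
    Ex p I (fun A => c * F A) = c * Ex p I F := by
  unfold Ex
  rw [Finset.mul_sum]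
  apply Finset.sum_congr rfl
  intro A _
  ring

lemma Ex_sum {ι : Type*} (I : Finset ℕ) (s : Finset ι) (F : ι → Finset ℕ → ℝ) :
    Ex p I (fun A => ∑ i ∈ s, F i A) = ∑ i ∈ s, Ex p I (F i) := by
  classical
  unfold Ex
  rw [Finset.sum_comm]
  apply Finset.sum_congr rfl
  intro A _
  rw [Finset.mul_sum]

/-- The generating function of the size. -/
lemma Ex_pow_card (I : Finset ℕ) (x : ℝ) :
    Ex p I (fun A => x ^ A.card) = (1 - p + p * x) ^ I.card := by
  induction I using Finset.induction_on with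
  | empty => simp
  | insert m I hm ih =>
    rw [Ex_insert hm, ih, Finset.card_insert_of_notMem hm]
    have : Ex p I (fun A => x ^ (insert m A).card) = Ex p I (fun A => x * x ^ A.card) := by
      apply Ex_congr
      intro A hA
      rw [Finset.card_insert_of_notMem (fun h => hm (hA h)), pow_succ]
      ring
    rw [this, Ex_mul_left, ih, pow_succ]
    ring

lemma Ex_const (I : Finset ℕ) (c : ℝ) : Ex p I (fun _ => c) = c := by
  have h := Ex_pow_card (p := p) I 1
  have h2 : Ex p I (fun _ => c) = Ex p I (fun A => c * (1 : ℝ) ^ A.card) := by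
    apply Ex_congr
    intro A _
    simp
  rw [h2, Ex_mul_left, h]
  simp

lemma Ex_union {I J : Finset ℕ} (hIJ : Disjoint I J) (F : Finset ℕ → ℝ) :
    Ex p (I ∪ J) F = Ex p I (fun A => Ex p J (fun B => F (A ∪ B))) := by
  induction I using Finset.induction_on generalizing F with
  | empty => simp
  | insert m I hm ih =>
    rw [Finset.disjoint_insert_left] at hIJ
    rw [Finset.insert_union, Ex_insert (by simp [hm, hIJ.1]), ih hIJ.2, ih hIJ.2, Ex_insert hm]
    congr 2
    apply Ex_congr
    intro A _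
    apply Ex_congr
    intro B _
    rw [Finset.insert_union]

lemma Ex_marginal {I J : Finset ℕ} (hJ : J ⊆ I) (F : Finset ℕ → ℝ) :
    Ex p I (fun A => F (A ∩ J)) = Ex p J F := by
  have hI : I = J ∪ (I \ J) := by
    rw [Finset.union_sdiff_of_subset hJ]
  rw [hI, Ex_union Finset.disjoint_sdiff]
  apply Ex_congr
  intro A hA
  have : Ex p (I \ J) (fun B => F ((A ∪ B) ∩ J)) = Ex p (I \ J) (fun _ => F A) := by
    apply Ex_congr
    intro B hB
    congr 1
    ext x
    simp only [Finset.mem_inter, Finset.mem_union]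
    constructor
    · rintro ⟨hx | hx, hxJ⟩
      · exact hx
      · exact absurd hxJ (Finset.mem_sdiff.1 (hB hx)).2
    · intro hx
      exact ⟨Or.inl hx, hA hx⟩
  rw [this, Ex_const]

end Pool.Agent.MP_a40b8c_co
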