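import Pool.Agent.Lib.MP_a40b8c_co.Smooth

/-!
The binomial average is dominated by averages over short progressions.
-/

namespace Pool.Agent.MP_a40b8c_co

open Finset

lemma Bop_iterate_eq (s K : ℕ) : ∀ (g : ℤ → ℝ) (z : ℤ),
    (Bop s)^[K] g z = ∑ a ∈ range (K + 1), (K.choose a : ℝ) / 2 ^ K * g (z + a * s) := by
  induction K with
  | zero => intro g z; simp
  | succ K ih =>
    intro g z
    rw [Function.iterate_succ_apply, ih]
    have h := Finset.sum_choose_succ_mul (R := ℝ) (fun a _ => g (z + a * s)) K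
    have e1 : ∑ a ∈ range (K + 1 + 1), ((K + 1).choose a : ℝ) / 2 ^ (K + 1) * g (z + a * s) =
        (1 / 2 ^ (K + 1)) * ∑ a ∈ range (K + 2), ((K + 1).choose a : ℝ) * g (z + a * s) := by
      rw [Finset.mul_sum]
      apply Finset.sum_congr rfl
      intro a _
      ring
    rw [e1, h, ← Finset.sum_add_distrib, Finset.mul_sum]
    apply Finset.sum_congr rfl
    intro a _
    unfold Bop
    have : z + (a : ℤ) * s + s = z + ((a + 1 : ℕ) : ℤ) * s := by push_cast; ring
    rw [this, pow_succ]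
    field_simp

lemma centralBinom_bound (n : ℕ) : (2 * n + 1) * n.centralBinom ^ 2 ≤ 16 ^ n := by
  induction n with
  | zero => simp
  | succ n ih =>
    have h := Nat.succ_mul_centralBinom_succ n
    -- multiply through by `(n + 1) ^ 2`
    have h1 : (n + 1) ^ 2 * ((2 * (n + 1) + 1) * (n + 1).centralBinom ^ 2) ≤
        (n + 1) ^ 2 * 16 ^ (n + 1) := by
      have e1 : (n + 1) ^ 2 * ((2 * (n + 1) + 1) * (n + 1).centralBinom ^ 2) =
          (2 * n + 3) * ((n + 1) * (n + 1).centralBinom) ^ 2 := by ring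
      rw [e1, h]
      have e2 : (2 * n + 3) * (2 * (2 * n + 1) * n.centralBinom) ^ 2 =
          4 * ((2 * n + 3) * (2 * n + 1)) * ((2 * n + 1) * n.centralBinom ^ 2) := by ring
      rw [e2]
      calc 4 * ((2 * n + 3) * (2 * n + 1)) * ((2 * n + 1) * n.centralBinom ^ 2)
          ≤ 4 * ((2 * n + 3) * (2 * n + 1)) * 16 ^ n := Nat.mul_le_mul_left _ ih
        _ ≤ 4 * (4 * (n + 1) ^ 2) * 16 ^ n := by
            apply Nat.mul_le_mul_right
            apply Nat.mul_le_mul_left
            nlinarith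
        _ = (n + 1) ^ 2 * 16 ^ (n + 1) := by rw [pow_succ]; ring
    exact Nat.le_of_mul_le_mul_left h1 (by positivity)

/-- `centralBinom (h ^ 2) / 4 ^ (h ^ 2) ≤ 1 / h`. -/
lemma centralBinom_sq_le (h : ℕ) (hh : 0 < h) :
    (h : ℝ) * (((h ^ 2).centralBinom : ℝ) / 4 ^ (h ^ 2)) ≤ 1 := by
  have h1 := centralBinom_bound (h ^ 2)
  have h2 : (h * (h ^ 2).centralBinom) ^ 2 ≤ (4 ^ (h ^ 2)) ^ 2 := by
    calc (h * (h ^ 2).centralBinom) ^ 2 = h ^ 2 * (h ^ 2).centralBinom ^ 2 := by ring
      _ ≤ (2 * h ^ 2 + 1) * (h ^ 2).centralBinom ^ 2 := by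
          apply Nat.mul_le_mul_right
          omega
      _ ≤ 16 ^ (h ^ 2) := h1
      _ = (4 ^ (h ^ 2)) ^ 2 := by
          rw [← pow_mul, mul_comm (h ^ 2) 2, pow_mul]
          norm_num
  have h3 : h * (h ^ 2).centralBinom ≤ 4 ^ (h ^ 2) := by
    exact (Nat.pow_le_pow_iff_left (by norm_num)).1 h2
  have h4 : (h : ℝ) * ((h ^ 2).centralBinom : ℝ) ≤ 4 ^ (h ^ 2) := by exact_mod_cast h3
  rw [← mul_div_assoc, div_le_one (by positivity)]
  exact h4

lemma partial_sum_le {x : ℕ → ℝ} (hx : ∀ i, 0 ≤ x i) {h : ℕ} (hh : 0 < h) {B : ℝ} (hB : 0 ≤ B)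
    (H : ∀ m, ∑ i ∈ range h, x (m + i) ≤ h * B) (m : ℕ) :
    ∑ i ∈ range m, x i ≤ (m + h) * B := by
  induction m using Nat.strong_induction_on with
  | _ m ih =>
    rcases Nat.lt_or_ge m h with hm | hm
    · calc ∑ i ∈ range m, x i ≤ ∑ i ∈ range h, x i := by
            apply Finset.sum_le_sum_of_subset_of_nonneg
            · exact Finset.range_subset_range.2 hm.le
            · intro i _ _
              exact hx i
        _ ≤ h * B := by simpa using H 0
        _ ≤ (m + h) * B := by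
            apply mul_le_mul_of_nonneg_right _ hB
            have : (0 : ℝ) ≤ m := Nat.cast_nonneg m
            linarith
    · obtain ⟨m', rfl⟩ := Nat.exists_eq_add_of_le' hm
      rw [Finset.sum_range_add]
      have h1 := ih m' (by omega)
      have h2 := H m'
      push_cast
      nlinarith

/-- Abel summation bound for an antitone weight. -/
lemma abel_bound {f x : ℕ → ℝ} (hf0 : ∀ i, 0 ≤ f i) (hf : ∀ i, f (i + 1) ≤ f i)
    (hx : ∀ i, 0 ≤ x i) {h : ℕ} (hh : 0 < h) {B : ℝ} (hB : 0 ≤ B)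
    (H : ∀ m, ∑ i ∈ range h, x (m + i) ≤ h * B) (n : ℕ) :
    ∑ i ∈ range n, f i * x i ≤ B * (∑ i ∈ range n, f i + h * f 0) := by
  have key : ∀ n, f n * ((n + h) * B - ∑ i ∈ range n, x i) ≤
      B * (∑ i ∈ range n, f i + h * f 0) - ∑ i ∈ range n, f i * x i := by
    intro n
    induction n with
    | zero => simp; linarith
    | succ n ih =>
      have hG := partial_sum_le hx hh hB H (n + 1)
      rw [Finset.sum_range_succ, Finset.sum_range_succ, Finset.sum_range_succ]
      rw [Finset.sum_range_succ] at hG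
      have h1 : f (n + 1) * (((n + 1 : ℕ) + h) * B - (∑ i ∈ range n, x i + x n)) ≤
          f n * (((n + 1 : ℕ) + h) * B - (∑ i ∈ range n, x i + x n)) :=
        mul_le_mul_of_nonneg_right (hf n) (by linarith)
      push_cast at h1 ⊢
      nlinarith
  have h1 := key n
  have h2 := partial_sum_le hx hh hB H n
  have h3 : 0 ≤ f n * ((n + h) * B - ∑ i ∈ range n, x i) :=
    mul_nonneg (hf0 n) (by linarith)
  linarith

/-- The binomial average with `2 h ^ 2` coins is at most three times the largest average over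
progressions of length `h`. -/
lemma Bop_smooth {s h : ℕ} (hh : 0 < h) {g : ℤ → ℝ} (hg : ∀ y, 0 ≤ g y) {B : ℝ}
    (H : ∀ y, ∑ i ∈ range h, g (y + i * s) ≤ h * B) (z : ℤ) :
    (Bop s)^[2 * h ^ 2] g z ≤ 3 * B := by
  have hB : 0 ≤ B := by
    have h1 := H 0
    have h2 : 0 ≤ ∑ i ∈ range h, g (0 + i * s) := Finset.sum_nonneg (fun i _ => hg _)
    have h3 : (0 : ℝ) < h := by exact_mod_cast hh
    by_contra hneg
    push Not at hneg
    nlinarith
  set u := h ^ 2 with hu
  have hu0 : 0 < u := by positivity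
  rw [Bop_iterate_eq]
  set f : ℕ → ℝ := fun i => ((2 * u).choose (u + i) : ℝ) / 2 ^ (2 * u) with hf
  have hf0 : ∀ i, 0 ≤ f i := fun i => by positivity
  have hfa : ∀ i, f (i + 1) ≤ f i := by
    intro i
    simp only [hf]
    apply div_le_div_of_nonneg_right _ (by positivity)
    have h1 : (2 * u).choose (u + i + 1) * (u + i + 1) = (2 * u).choose (u + i) * (2 * u - (u + i)) :=
      Nat.choose_succ_right_eq (2 * u) (u + i)
    have h2 : (2 * u).choose (u + i + 1) ≤ (2 * u).choose (u + i) := by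
      by_contra hlt
      push Not at hlt
      have h3 : (2 * u).choose (u + i) * (2 * u - (u + i)) ≤ (2 * u).choose (u + i) * (u + i + 1) := by
        apply Nat.mul_le_mul_left
        omega
      have h4 : (2 * u).choose (u + i) * (u + i + 1) < (2 * u).choose (u + i + 1) * (u + i + 1) :=
        Nat.mul_lt_mul_of_pos_right hlt (by omega)
      omega
    exact_mod_cast h2
  -- split the sum at the middle
  have e1 : 2 * u + 1 = u + (u + 1) := by ring
  rw [e1, Finset.sum_range_add]
  have hright : ∑ i ∈ range (u + 1), ((2 * u).choose (u + i) : ℝ) / 2 ^ (2 * u) *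
      g (z + ((u + i : ℕ) : ℤ) * s) ≤ B * (∑ i ∈ range (u + 1), f i + h * f 0) := by
    apply abel_bound (x := fun i => g (z + ((u + i : ℕ) : ℤ) * s)) hf0 hfa (fun i => hg _) hh hB
    intro m
    have := H (z + ((u + m : ℕ) : ℤ) * s)
    refine le_trans (le_of_eq ?_) this
    apply Finset.sum_congr rfl
    intro i _
    congr 1
    push_cast
    ring
  have hleft : ∑ a ∈ range u, ((2 * u).choose a : ℝ) / 2 ^ (2 * u) * g (z + (a : ℤ) * s) ≤
      B * (∑ i ∈ range u, f (i + 1) + h * f (0 + 1)) := by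
    rw [← Finset.sum_range_reflect]
    have e2 : ∀ i ∈ range u, ((2 * u).choose (u - 1 - i) : ℝ) / 2 ^ (2 * u) *
        g (z + ((u - 1 - i : ℕ) : ℤ) * s) = f (i + 1) * g (z + ((u : ℤ) - 1 - i) * s) := by
      intro i hi
      rw [Finset.mem_range] at hi
      have h1 : (2 * u).choose (u - 1 - i) = (2 * u).choose (u + (i + 1)) := by
        rw [← Nat.choose_symm (by omega : u + (i + 1) ≤ 2 * u)]
        congr 1
        omega
      have h2 : ((u - 1 - i : ℕ) : ℤ) = (u : ℤ) - 1 - i := by omega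
      rw [h1, h2]
    rw [Finset.sum_congr rfl e2]
    apply abel_bound (f := fun i => f (i + 1)) (x := fun i => g (z + ((u : ℤ) - 1 - i) * s))
      (fun i => hf0 _) (fun i => hfa _) (fun i => hg _) hh hB
    intro m
    have := H (z + ((u : ℤ) - 1 - m - (h - 1 : ℕ)) * s)
    refine le_trans (le_of_eq ?_) this
    rw [← Finset.sum_range_reflect]
    apply Finset.sum_congr rfl
    intro i hi
    rw [Finset.mem_range] at hi
    congr 1
    have : ((h - 1 - i : ℕ) : ℤ) = (h - 1 : ℕ) - i := by omega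
    push_cast
    rw [this]
    ring
  have hsum : ∑ i ∈ range (u + 1), f i + ∑ i ∈ range u, f (i + 1) ≤ 1 := by
    have h1 : ∑ a ∈ range (2 * u + 1), ((2 * u).choose a : ℝ) / 2 ^ (2 * u) = 1 := by
      rw [← Finset.sum_div]
      have h2 := Nat.sum_range_choose (2 * u)
      have h3 : (∑ a ∈ range (2 * u + 1), ((2 * u).choose a : ℝ)) = 2 ^ (2 * u) := by
        exact_mod_cast h2
      rw [h3]
      exact div_self (by positivity)
    rw [e1, Finset.sum_range_add, ← Finset.sum_range_reflect] at h1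
    have h4 : ∑ i ∈ range u, f (i + 1) =
        ∑ i ∈ range u, ((2 * u).choose (u - 1 - i) : ℝ) / 2 ^ (2 * u) := by
      apply Finset.sum_congr rfl
      intro i hi
      rw [Finset.mem_range] at hi
      simp only [hf]
      congr 2
      rw [← Nat.choose_symm (by omega : u + (i + 1) ≤ 2 * u)]
      congr 1
      omega
    rw [h4]
    linarith
  have hmax : (h : ℝ) * f 0 ≤ 1 := by
    have h1 := centralBinom_sq_le h hh
    rw [← hu] at h1
    simp only [hf, add_zero]
    rw [Nat.centralBinom_eq_two_mul_choose] at h1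
    have h2 : (2 : ℝ) ^ (2 * u) = 4 ^ u := by
      rw [pow_mul]
      norm_num
    rw [h2]
    exact h1
  have hmax1 : (h : ℝ) * f (0 + 1) ≤ 1 := by
    have h1 := hfa 0
    have h2 : (0 : ℝ) ≤ h := Nat.cast_nonneg h
    calc (h : ℝ) * f (0 + 1) ≤ h * f 0 := mul_le_mul_of_nonneg_left h1 h2
      _ ≤ 1 := hmax
  calc _ ≤ B * (∑ i ∈ range u, f (i + 1) + h * f (0 + 1)) +
        B * (∑ i ∈ range (u + 1), f i + h * f 0) := add_le_add hleft hright
    _ = B * ((∑ i ∈ range (u + 1), f i + ∑ i ∈ range u, f (i + 1)) +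
        (h * f (0 + 1) + h * f 0)) := by ring
    _ ≤ B * 3 := by
        apply mul_le_mul_of_nonneg_left _ hB
        linarith
    _ = 3 * B := by ring

end Pool.Agent.MP_a40b8c_co
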