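import Pool.Agent.Lib.MP_a40b8c_co.Hit

/-!
One block of the exploration produces many new differences in expectation.
-/

namespace Pool.Agent.MP_a40b8c_co

open Finset

variable {p : ℝ}

/-- Prefix sums of a set of naturals. -/
def pre (A : Finset ℕ) (k : ℕ) : ℤ := ∑ m ∈ A.filter (· ≤ k), (m : ℤ)

/-- The number of distinct values outside `U`, bounded below by first and second moments. -/
lemma distinct_bound {ι : Type*} (P : Finset ι) (f : ι → ℤ) (U : Finset ℤ) (lam : ℝ)
    (hlam : 0 ≤ lam) :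
    2 * lam * (P.card - ∑ q ∈ P, ind U (f q)) -
        lam ^ 2 * ∑ q ∈ P, ∑ q' ∈ P, (if f q = f q' then (1 : ℝ) else 0) ≤
      ((P.image f \ U).card : ℝ) := by
  classical
  set r : ℤ → ℝ := fun v => ((P.filter fun a => f a = v).card : ℝ) with hr
  have h1 : ∑ q ∈ P, ∑ q' ∈ P, (if f q = f q' then (1 : ℝ) else 0) =
      ∑ v ∈ P.image f, r v * r v := by
    have e1 : ∀ q ∈ P, ∑ q' ∈ P, (if f q = f q' then (1 : ℝ) else 0) = r (f q) := by
      intro q _
      simp only [hr]
      rw [Finset.sum_boole]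
      congr 2
      apply Finset.filter_congr
      intro x _
      exact eq_comm
    rw [Finset.sum_congr rfl e1, Finset.sum_comp r f]
    apply Finset.sum_congr rfl
    intro v _
    rw [nsmul_eq_mul]
  have h2 : (P.card : ℝ) - ∑ q ∈ P, ind U (f q) =
      ∑ v ∈ P.image f, r v * (1 - ind U v) := by
    have e1 : (P.card : ℝ) - ∑ q ∈ P, ind U (f q) = ∑ q ∈ P, (1 - ind U (f q)) := by
      rw [Finset.sum_sub_distrib]
      simp
    rw [e1, Finset.sum_comp (fun v => 1 - ind U v) f]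
    apply Finset.sum_congr rfl
    intro v _
    rw [nsmul_eq_mul]
  have h3 : ((P.image f \ U).card : ℝ) = ∑ v ∈ P.image f, (1 - ind U v) := by
    have e1 : ∀ v ∈ P.image f, (1 - ind U v) = if v ∉ U then (1 : ℝ) else 0 := by
      intro v _
      unfold ind
      by_cases hv : v ∈ U
      · simp [hv]
      · simp [hv]
    rw [Finset.sum_congr rfl e1, Finset.sum_boole]
    congr 2
    ext v
    simp
  rw [h1, h2, h3, Finset.mul_sum, Finset.mul_sum, ← Finset.sum_sub_distrib]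
  apply Finset.sum_le_sum
  intro v _
  unfold ind
  by_cases hv : v ∈ (U : Set ℤ)
  · simp only [hv, if_true]
    have : 0 ≤ lam ^ 2 * (r v * r v) := by positivity
    linarith
  · simp only [hv, if_false]
    nlinarith [sq_nonneg (lam * r v - 1)]

/-- Sum over shifts: the indicator of a translate. -/
lemma sum_ind_sub (X U : Finset ℤ) (y : ℤ) :
    ∑ x ∈ X, ind (U : Set ℤ) (y - x) = ∑ u ∈ U, ind ((fun x => u + x) '' (X : Set ℤ)) y := by
  classical
  have h1 : ∀ x, ind (U : Set ℤ) (y - x) = ∑ u ∈ U, if y - x = u then (1 : ℝ) else 0 := by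
    intro x
    unfold ind
    rw [Finset.sum_ite_eq U (y - x)]
    simp
  have h2 : ∀ u, ind ((fun x => u + x) '' (X : Set ℤ)) y =
      ∑ x ∈ X, if y - x = u then (1 : ℝ) else 0 := by
    intro u
    have e1 : ∀ x ∈ X, (if y - x = u then (1 : ℝ) else 0) = if y - u = x then (1 : ℝ) else 0 := by
      intro x _
      by_cases h : y - x = u
      · rw [if_pos h, if_pos (by omega)]
      · rw [if_neg h, if_neg (by omega)]
    rw [Finset.sum_congr rfl e1, Finset.sum_ite_eq X (y - u)]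
    unfold ind
    have e2 : (y ∈ (fun x => u + x) '' (X : Set ℤ)) ↔ y - u ∈ X := by
      constructor
      · rintro ⟨x, hx, rfl⟩
        have : u + x - u = x := by ring
        rw [this]
        exact hx
      · intro h
        exact ⟨y - u, h, by ring⟩
    by_cases h : y - u ∈ X
    · rw [if_pos (e2.2 h), if_pos h]
    · rw [if_neg (fun h' => h (e2.1 h')), if_neg h]
  simp_rw [h1, h2]
  rw [Finset.sum_comm]

lemma Sep.translate {L : ℝ} {X : Set ℤ} (h : Sep L X) (u : ℤ) :
    Sep L ((fun x => u + x) '' X) := by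
  rintro _ ⟨a, ha, rfl⟩ _ ⟨b, hb, rfl⟩ hab
  have := h a ha b hb (by simpa using hab)
  have e : (u + b) - (u + a) = b - a := by ring
  simp only [e]
  exact this

/-- Marginal law of a window sum. -/
lemma Ex_window {I : Finset ℕ} {a b : ℕ} (hI : Ioc a b ⊆ I) (g : ℤ → ℝ) (z : ℤ) :
    Ex p I (fun A => g (z + ∑ m ∈ A ∩ Ioc a b, (m : ℤ))) = Es p (Ioc a b) g z := by
  exact Ex_marginal hI (fun A => g (z + ∑ m ∈ A, (m : ℤ)))

lemma pre_sub {A : Finset ℕ} {a b : ℕ} (hab : a ≤ b) :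
    pre A b - pre A a = ∑ m ∈ A ∩ Ioc a b, (m : ℤ) := by
  unfold pre
  have h1 : A.filter (· ≤ b) = A.filter (· ≤ a) ∪ (A ∩ Ioc a b) := by
    ext x
    simp only [Finset.mem_filter, Finset.mem_union, Finset.mem_inter, Finset.mem_Ioc]
    constructor
    · rintro ⟨h1, h2⟩
      rcases Nat.lt_or_ge a x with h | h
      · right; exact ⟨h1, h, h2⟩
      · left; exact ⟨h1, h⟩
    · rintro (⟨h1, h2⟩ | ⟨h1, h2, h3⟩)
      · exact ⟨h1, h2.trans hab⟩
      · exact ⟨h1, h3⟩
  have h2 : Disjoint (A.filter (· ≤ a)) (A ∩ Ioc a b) := by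
    rw [Finset.disjoint_left]
    intro x hx hx'
    simp only [Finset.mem_filter, Finset.mem_inter, Finset.mem_Ioc] at hx hx'
    omega
  rw [h1, Finset.sum_union h2]
  ring

/-- The hitting hypothesis, as supplied by `hit_bound`. -/
def Hits (p C : ℝ) : Prop := ∀ (w : ℕ), 0 < w → ∀ (k : ℕ) (L : ℝ),
    0 < L → ∀ (D : Set ℤ), Sep L D → ∀ z : ℤ,
      Es p (Ico k (k + w)) (ind D) z ≤ C * (om w + 1 / L)

lemma Hits.ioc {C : ℝ} (h : Hits p C) {a b : ℕ} (hab : a < b) {L : ℝ} (hL : 0 < L) {D : Set ℤ}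
    (hD : Sep L D) (z : ℤ) : Es p (Ioc a b) (ind D) z ≤ C * (om (b - a) + 1 / L) := by
  have h1 := h (b - a) (by omega) (a + 1) L hL D hD z
  have h2 : Ico (a + 1) (a + 1 + (b - a)) = Ioc a b := by
    ext x
    simp only [Finset.mem_Ico, Finset.mem_Ioc]
    omega
  rwa [h2] at h1

/-- First moment of the bad pairs. -/
lemma bad_bound {C : ℝ} (h : Hits p C) {β b : ℕ} {j : ℕ} (hj0 : 0 < j) (hjb : j ≤ b)
    {L : ℝ} (hL : 0 < L) {X : Finset ℤ} (hX : Sep L (X : Set ℤ)) (U : Finset ℤ) (τ : ℤ) :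
    Ex p (Ioc β (β + b)) (fun B => ∑ x ∈ X, ind (U : Set ℤ) (τ + (pre B (β + j) - pre B β) - x)) ≤
      U.card * (C * (om j + 1 / L)) := by
  have h1 : Ex p (Ioc β (β + b)) (fun B => ∑ x ∈ X, ind (U : Set ℤ) (τ + (pre B (β + j) - pre B β) - x)) =
      ∑ u ∈ U, Es p (Ioc β (β + j)) (ind ((fun x => u + x) '' (X : Set ℤ))) τ := by
    have e1 : ∀ B ⊆ Ioc β (β + b), ∑ x ∈ X, ind (U : Set ℤ) (τ + (pre B (β + j) - pre B β) - x) =
        ∑ u ∈ U, ind ((fun x => u + x) '' (X : Set ℤ)) (τ + ∑ m ∈ B ∩ Ioc β (β + j), (m : ℤ)) := by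
      intro B _
      rw [sum_ind_sub, pre_sub (by omega)]
    rw [Ex_congr e1, Ex_sum]
    apply Finset.sum_congr rfl
    intro u _
    exact Ex_window (Finset.Ioc_subset_Ioc_right (by omega)) _ _
  rw [h1]
  calc ∑ u ∈ U, Es p (Ioc β (β + j)) (ind ((fun x => u + x) '' (X : Set ℤ))) τ
      ≤ ∑ _u ∈ U, C * (om j + 1 / L) := by
        apply Finset.sum_le_sum
        intro u _
        have := h.ioc (a := β) (b := β + j) (by omega) hL (hX.translate u) τ
        rwa [Nat.add_sub_cancel_left] at this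
    _ = U.card * (C * (om j + 1 / L)) := by
        rw [Finset.sum_const, nsmul_eq_mul]

/-- Collisions between two different times. -/
lemma coll_bound_lt {C : ℝ} (h : Hits p C) {β b : ℕ} {i j : ℕ} (hij : i < j) (hjb : j ≤ b)
    {L : ℝ} (hL : 0 < L) {X : Finset ℤ} (hX : Sep L (X : Set ℤ)) (τ : ℤ) :
    Ex p (Ioc β (β + b)) (fun B => ∑ x ∈ X, ∑ x' ∈ X,
      (if τ + (pre B (β + i) - pre B β) - x = τ + (pre B (β + j) - pre B β) - x'
        then (1 : ℝ) else 0)) ≤ X.card * (C * (om (j - i) + 1 / L)) := by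
  have h1 : ∀ B ⊆ Ioc β (β + b), ∑ x ∈ X, ∑ x' ∈ X,
      (if τ + (pre B (β + i) - pre B β) - x = τ + (pre B (β + j) - pre B β) - x'
        then (1 : ℝ) else 0) =
      ∑ x ∈ X, ind (X : Set ℤ) (x + ∑ m ∈ B ∩ Ioc (β + i) (β + j), (m : ℤ)) := by
    intro B _
    apply Finset.sum_congr rfl
    intro x _
    rw [← pre_sub (by omega)]
    have e1 : ∀ x' ∈ X, (if τ + (pre B (β + i) - pre B β) - x = τ + (pre B (β + j) - pre B β) - x'
        then (1 : ℝ) else 0) =
        if x + (pre B (β + j) - pre B (β + i)) = x' then (1 : ℝ) else 0 := by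
      intro x' _
      by_cases hh : x + (pre B (β + j) - pre B (β + i)) = x'
      · rw [if_pos hh, if_pos (by omega)]
      · rw [if_neg hh, if_neg (by omega)]
    rw [Finset.sum_congr rfl e1, Finset.sum_ite_eq]
    unfold ind
    simp
  rw [Ex_congr h1, Ex_sum]
  calc ∑ x ∈ X, Ex p (Ioc β (β + b)) (fun B => ind (X : Set ℤ)
        (x + ∑ m ∈ B ∩ Ioc (β + i) (β + j), (m : ℤ)))
      ≤ ∑ _x ∈ X, C * (om (j - i) + 1 / L) := by
        apply Finset.sum_le_sum
        intro x _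
        rw [Ex_window (Finset.Ioc_subset_Ioc (by omega) (by omega))]
        have := h.ioc (a := β + i) (b := β + j) (by omega) hL hX x
        rwa [Nat.add_sub_add_left] at this
    _ = X.card * (C * (om (j - i) + 1 / L)) := by
        rw [Finset.sum_const, nsmul_eq_mul]

end Pool.Agent.MP_a40b8c_co
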