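import Pool.Agent.Lib.MP_a40b8c_co.Block

/-!
The block lemma: expected number of new differences in one block.
-/

namespace Pool.Agent.MP_a40b8c_co

open Finset

variable {p : ℝ}

lemma om_zero : om 0 = 0 := by
  unfold om
  rw [Nat.cast_zero, Real.zero_rpow (by norm_num)]

lemma om_sum_range_le (n : ℕ) : ∑ i ∈ range n, om i ≤ ∑' i, om i :=
  om_summable.sum_le_tsum _ (fun i _ => om_nonneg i)

lemma om_tsum_nonneg : 0 ≤ ∑' i, om i := tsum_nonneg om_nonneg

lemma om_sum_sub_le (J : Finset ℕ) (j : ℕ) : ∑ i ∈ J, om (i - j) ≤ ∑' i, om i := by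
  classical
  obtain ⟨n, hn⟩ : ∃ n, ∀ i ∈ J, i < n := ⟨J.sup id + 1, fun i hi => Nat.lt_succ_of_le (Finset.le_sup (f := id) hi)⟩
  have h1 : ∑ i ∈ J, om (i - j) ≤ ∑ i ∈ range (j + n), om (i - j) := by
    apply Finset.sum_le_sum_of_subset_of_nonneg
    · intro i hi
      rw [Finset.mem_range]
      have := hn i hi
      omega
    · intro i _ _
      exact om_nonneg _
  have h2 : ∑ i ∈ range (j + n), om (i - j) = ∑ i ∈ range n, om i := by
    rw [Finset.sum_range_add]
    have e1 : ∑ x ∈ range j, om (x - j) = 0 := by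
      apply Finset.sum_eq_zero
      intro x hx
      rw [Finset.mem_range] at hx
      rw [Nat.sub_eq_zero_of_le hx.le, om_zero]
    rw [e1, zero_add]
    apply Finset.sum_congr rfl
    intro x _
    rw [Nat.add_sub_cancel_left]
  rw [h2] at h1
  exact h1.trans (om_sum_range_le n)

lemma om_sum_sub_le' (J : Finset ℕ) (j : ℕ) : ∑ i ∈ J, om (j - i) ≤ ∑' i, om i := by
  classical
  have h1 : ∑ i ∈ J, om (j - i) = ∑ i ∈ J.filter (· < j), om (j - i) := by
    rw [Finset.sum_filter]
    apply Finset.sum_congr rfl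
    intro i _
    by_cases h : i < j
    · rw [if_pos h]
    · rw [if_neg h, Nat.sub_eq_zero_of_le (by omega), om_zero]
  have h2 : ∑ i ∈ J.filter (· < j), om (j - i) ≤ ∑ i ∈ range j, om (j - i) := by
    apply Finset.sum_le_sum_of_subset_of_nonneg
    · intro i hi
      rw [Finset.mem_filter] at hi
      rw [Finset.mem_range]
      exact hi.2
    · intro i _ _
      exact om_nonneg _
  have h3 : ∑ i ∈ range j, om (j - i) ≤ ∑ i ∈ range (j + 1), om i := by
    rw [← Finset.sum_range_reflect, Finset.sum_range_succ']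
    have e1 : ∑ i ∈ range j, om (j - (j - 1 - i)) = ∑ i ∈ range j, om (i + 1) := by
      apply Finset.sum_congr rfl
      intro i hi
      rw [Finset.mem_range] at hi
      congr 1
      omega
    rw [e1, om_zero, add_zero]
  rw [h1]
  exact h2.trans (h3.trans (om_sum_range_le _))

/-- The expected number of collisions between the pairs at times `i` and `j`. -/
lemma coll_bound {C : ℝ} (hC : 0 ≤ C) (h : Hits p C) {β b : ℕ} {i j : ℕ} (hib : i ≤ b)
    (hjb : j ≤ b) {L : ℝ} (hL : 0 < L) {X : Finset ℤ} (hX : Sep L (X : Set ℤ)) (τ : ℤ) :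
    Ex p (Ioc β (β + b)) (fun B => ∑ x ∈ X, ∑ x' ∈ X,
      (if τ + (pre B (β + i) - pre B β) - x = τ + (pre B (β + j) - pre B β) - x'
        then (1 : ℝ) else 0)) ≤
      X.card * ((if i = j then 1 else 0) + C * (om (j - i) + om (i - j) + 1 / L)) := by
  have hL' : 0 ≤ 1 / L := by positivity
  have hX0 : (0 : ℝ) ≤ X.card := Nat.cast_nonneg _
  rcases lt_trichotomy i j with hij | hij | hij
  · have h1 := coll_bound_lt h hij hjb hL hX τ (β := β) (b := b)
    rw [if_neg (by omega), Nat.sub_eq_zero_of_le hij.le, om_zero]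
    refine h1.trans (le_of_eq ?_)
    ring
  · subst hij
    have e1 : ∀ B ⊆ Ioc β (β + b), ∑ x ∈ X, ∑ x' ∈ X,
        (if τ + (pre B (β + i) - pre B β) - x = τ + (pre B (β + i) - pre B β) - x'
          then (1 : ℝ) else 0) = X.card := by
      intro B _
      have e2 : ∀ x ∈ X, ∑ x' ∈ X,
          (if τ + (pre B (β + i) - pre B β) - x = τ + (pre B (β + i) - pre B β) - x'
            then (1 : ℝ) else 0) = 1 := by
        intro x hx
        have e3 : ∀ x' ∈ X, (if τ + (pre B (β + i) - pre B β) - x = τ + (pre B (β + i) - pre B β) - x'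
            then (1 : ℝ) else 0) = if x = x' then (1 : ℝ) else 0 := by
          intro x' _
          by_cases hh : x = x'
          · rw [if_pos hh, if_pos (by omega)]
          · rw [if_neg hh, if_neg (by omega)]
        rw [Finset.sum_congr rfl e3, Finset.sum_ite_eq, if_pos hx]
      rw [Finset.sum_congr rfl e2]
      simp
    rw [Ex_congr e1, Ex_const, if_pos rfl, Nat.sub_self, om_zero]
    have : 0 ≤ C * (0 + 0 + 1 / L) := by positivity
    nlinarith
  · have h1 := coll_bound_lt h hij hib hL hX τ (β := β) (b := b)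
    rw [if_neg (by omega), Nat.sub_eq_zero_of_le hij.le, om_zero]
    have e1 : ∀ B ⊆ Ioc β (β + b), ∑ x ∈ X, ∑ x' ∈ X,
        (if τ + (pre B (β + i) - pre B β) - x = τ + (pre B (β + j) - pre B β) - x'
          then (1 : ℝ) else 0) =
        ∑ x ∈ X, ∑ x' ∈ X,
        (if τ + (pre B (β + j) - pre B β) - x = τ + (pre B (β + i) - pre B β) - x'
          then (1 : ℝ) else 0) := by
      intro B _
      rw [Finset.sum_comm]
      apply Finset.sum_congr rfl
      intro x _
      apply Finset.sum_congr rfl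
      intro x' _
      simp only [eq_comm]
    rw [Ex_congr e1]
    refine h1.trans (le_of_eq ?_)
    ring

/-- The set of values produced in a block at the times `j ∈ J`. -/
def newVals (J : Finset ℕ) (X : Finset ℤ) (β : ℕ) (τ : ℤ) (B : Finset ℕ) : Finset ℤ :=
  (J ×ˢ X).image fun q => τ + (pre B (β + q.1) - pre B β) - q.2

lemma coll_total {C : ℝ} (hC : 0 ≤ C) (h : Hits p C) {β b : ℕ} {J : Finset ℕ}
    (hJ : ∀ j ∈ J, j ≤ b) {L : ℝ} (hL : 0 < L) {X : Finset ℤ} (hX : Sep L (X : Set ℤ)) (τ : ℤ) :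
    Ex p (Ioc β (β + b)) (fun B => ∑ q ∈ J ×ˢ X, ∑ q' ∈ J ×ˢ X,
      (if τ + (pre B (β + q.1) - pre B β) - q.2 = τ + (pre B (β + q'.1) - pre B β) - q'.2
        then (1 : ℝ) else 0)) ≤
      J.card * X.card * (1 + C * (2 * ∑' i, om i + J.card / L)) := by
  have e1 : ∀ B ⊆ Ioc β (β + b), ∑ q ∈ J ×ˢ X, ∑ q' ∈ J ×ˢ X,
      (if τ + (pre B (β + q.1) - pre B β) - q.2 = τ + (pre B (β + q'.1) - pre B β) - q'.2
        then (1 : ℝ) else 0) =
      ∑ i ∈ J, ∑ j ∈ J, ∑ x ∈ X, ∑ x' ∈ X,
      (if τ + (pre B (β + i) - pre B β) - x = τ + (pre B (β + j) - pre B β) - x'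
        then (1 : ℝ) else 0) := by
    intro B _
    rw [Finset.sum_product]
    apply Finset.sum_congr rfl
    intro i _
    rw [Finset.sum_comm' (t' := J ×ˢ X) (s' := fun _ => X) (by tauto)]
    rw [Finset.sum_product]
    apply Finset.sum_congr rfl
    intro j _
    rw [Finset.sum_comm]
  rw [Ex_congr e1, Ex_sum]
  have e2 : ∀ i ∈ J, Ex p (Ioc β (β + b)) (fun B => ∑ j ∈ J, ∑ x ∈ X, ∑ x' ∈ X,
      (if τ + (pre B (β + i) - pre B β) - x = τ + (pre B (β + j) - pre B β) - x'
        then (1 : ℝ) else 0)) ≤ X.card * (1 + C * (2 * ∑' i, om i + J.card / L)) := by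
    intro i hi
    rw [Ex_sum]
    calc ∑ j ∈ J, Ex p (Ioc β (β + b)) (fun B => ∑ x ∈ X, ∑ x' ∈ X,
          (if τ + (pre B (β + i) - pre B β) - x = τ + (pre B (β + j) - pre B β) - x'
            then (1 : ℝ) else 0))
        ≤ ∑ j ∈ J, X.card * ((if i = j then 1 else 0) + C * (om (j - i) + om (i - j) + 1 / L)) := by
          apply Finset.sum_le_sum
          intro j hj
          exact coll_bound hC h (hJ i hi) (hJ j hj) hL hX τ
      _ = X.card * (1 + C * (∑ j ∈ J, om (j - i) + ∑ j ∈ J, om (i - j) + J.card / L)) := by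
          rw [← Finset.mul_sum, Finset.sum_add_distrib, Finset.sum_ite_eq, if_pos hi,
            ← Finset.mul_sum, Finset.sum_add_distrib, Finset.sum_add_distrib, Finset.sum_const,
            nsmul_eq_mul]
          ring
      _ ≤ X.card * (1 + C * (2 * ∑' i, om i + J.card / L)) := by
          apply mul_le_mul_of_nonneg_left _ (Nat.cast_nonneg _)
          have h1 := om_sum_sub_le J i
          have h2 := om_sum_sub_le' J i
          have h3 : C * (∑ j ∈ J, om (j - i) + ∑ j ∈ J, om (i - j) + J.card / L) ≤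
              C * (2 * ∑' i, om i + J.card / L) := by
            apply mul_le_mul_of_nonneg_left _ hC
            linarith
          linarith
  calc _ ≤ ∑ _i ∈ J, X.card * (1 + C * (2 * ∑' i, om i + J.card / L)) := Finset.sum_le_sum e2
    _ = J.card * X.card * (1 + C * (2 * ∑' i, om i + J.card / L)) := by
        rw [Finset.sum_const, nsmul_eq_mul]
        ring

/-- **Block lemma**, raw form. -/
lemma block_raw {C : ℝ} (hp0 : 0 ≤ p) (hp1 : p ≤ 1) (hC : 0 ≤ C) (h : Hits p C) {β b : ℕ}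
    {J : Finset ℕ} (hJ0 : ∀ j ∈ J, 0 < j) (hJ : ∀ j ∈ J, j ≤ b) {L : ℝ} (hL : 0 < L)
    {X : Finset ℤ} (hX : Sep L (X : Set ℤ)) (U : Finset ℤ) (τ : ℤ) (lam : ℝ) (hlam : 0 ≤ lam)
    {η : ℝ} (hη : ∀ j ∈ J, om j ≤ η) :
    2 * lam * (J.card * X.card - J.card * (U.card * (C * (η + 1 / L)))) -
      lam ^ 2 * (J.card * X.card * (1 + C * (2 * ∑' i, om i + J.card / L))) ≤
    Ex p (Ioc β (β + b)) (fun B => ((newVals J X β τ B \ U).card : ℝ)) := by
  have h1 : Ex p (Ioc β (β + b)) (fun B =>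
      2 * lam * (((J ×ˢ X).card : ℝ) - ∑ q ∈ J ×ˢ X, ind (U : Set ℤ) (τ + (pre B (β + q.1) - pre B β) - q.2)) -
        lam ^ 2 * ∑ q ∈ J ×ˢ X, ∑ q' ∈ J ×ˢ X,
          (if τ + (pre B (β + q.1) - pre B β) - q.2 = τ + (pre B (β + q'.1) - pre B β) - q'.2
            then (1 : ℝ) else 0)) ≤
      Ex p (Ioc β (β + b)) (fun B => ((newVals J X β τ B \ U).card : ℝ)) := by
    apply Ex_mono hp0 hp1
    intro B _
    exact distinct_bound (J ×ˢ X) (fun q => τ + (pre B (β + q.1) - pre B β) - q.2) U lam hlam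
  refine le_trans ?_ h1
  rw [Ex_sub, Ex_mul_left, Ex_mul_left, Ex_sub, Ex_const]
  have h2 := coll_total hC h (β := β) hJ hL hX τ
  have h3 : Ex p (Ioc β (β + b)) (fun B => ∑ q ∈ J ×ˢ X,
      ind (U : Set ℤ) (τ + (pre B (β + q.1) - pre B β) - q.2)) ≤
      J.card * (U.card * (C * (η + 1 / L))) := by
    have e1 : ∀ B ⊆ Ioc β (β + b), ∑ q ∈ J ×ˢ X,
        ind (U : Set ℤ) (τ + (pre B (β + q.1) - pre B β) - q.2) =
        ∑ j ∈ J, ∑ x ∈ X, ind (U : Set ℤ) (τ + (pre B (β + j) - pre B β) - x) := by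
      intro B _
      rw [Finset.sum_product]
    rw [Ex_congr e1, Ex_sum]
    calc ∑ j ∈ J, Ex p (Ioc β (β + b)) (fun B => ∑ x ∈ X,
          ind (U : Set ℤ) (τ + (pre B (β + j) - pre B β) - x))
        ≤ ∑ _j ∈ J, U.card * (C * (η + 1 / L)) := by
          apply Finset.sum_le_sum
          intro j hj
          refine (bad_bound h (hJ0 j hj) (hJ j hj) hL hX U τ).trans ?_
          apply mul_le_mul_of_nonneg_left _ (Nat.cast_nonneg _)
          apply mul_le_mul_of_nonneg_left _ hC
          have := hη j hj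
          linarith
      _ = J.card * (U.card * (C * (η + 1 / L))) := by
          rw [Finset.sum_const, nsmul_eq_mul]
  rw [Finset.card_product]
  push_cast
  have h4 : 2 * lam * ((J.card : ℝ) * X.card - J.card * (U.card * (C * (η + 1 / L)))) ≤
      2 * lam * ((J.card : ℝ) * X.card - Ex p (Ioc β (β + b)) (fun B => ∑ q ∈ J ×ˢ X,
      ind (U : Set ℤ) (τ + (pre B (β + q.1) - pre B β) - q.2))) := by
    apply mul_le_mul_of_nonneg_left _ (by positivity)
    linarith
  have h5 := mul_le_mul_of_nonneg_left h2 (sq_nonneg lam)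
  linarith

end Pool.Agent.MP_a40b8c_co
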