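import Pool.Agent.Lib.MP_a40b8c_co.Binom

/-!
The probability that the sum of a `p`-random subset of an interval of length `w` hits an
`L`-separated set of integers is `O(w^{-3/2} + 1 / L)`.
-/

namespace Pool.Agent.MP_a40b8c_co

open Finset

variable {p : ℝ}

/-- Average over a progression of length `h` and difference `s`. -/
noncomputable def Av (h s : ℕ) (g : ℤ → ℝ) : ℤ → ℝ :=
  fun y => (1 / (h : ℝ)) * ∑ i ∈ range h, g (y + i * s)

lemma Av_nonneg {h s : ℕ} {g : ℤ → ℝ} (hg : ∀ y, 0 ≤ g y) (y : ℤ) : 0 ≤ Av h s g y := by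
  unfold Av
  apply mul_nonneg (by positivity)
  exact Finset.sum_nonneg (fun i _ => hg _)

lemma Av_le_one {h s : ℕ} (hh : 0 < h) {g : ℤ → ℝ} (hg : ∀ y, g y ≤ 1) (y : ℤ) :
    Av h s g y ≤ 1 := by
  unfold Av
  have h1 : ∑ i ∈ range h, g (y + i * s) ≤ ∑ i ∈ range h, (1 : ℝ) :=
    Finset.sum_le_sum (fun i _ => hg _)
  simp only [Finset.sum_const, Finset.card_range, nsmul_eq_mul, mul_one] at h1
  have h2 : (0 : ℝ) < h := by exact_mod_cast hh
  rw [one_div, inv_mul_le_iff₀ h2, mul_one]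
  exact h1

lemma scale_bound {s N h : ℕ} {I : Finset ℕ} (hI : PB p s N I)
    (hh : 0 < h) {g : ℤ → ℝ} (hg0 : ∀ y, 0 ≤ g y) (hg1 : ∀ y, g y ≤ 1) {B : ℝ}
    (H : ∀ y, ∑ i ∈ range h, g (y + i * s) ≤ h * B) (z : ℤ) :
    Es p I g z ≤ 3 * B + 4 ^ (h ^ 2) * (1 - p * (1 - p)) ^ N := by
  have hB : 0 ≤ B := by
    have h1 := H 0
    have h2 : 0 ≤ ∑ i ∈ range h, g (0 + i * s) := Finset.sum_nonneg (fun i _ => hg0 _)
    have h3 : (0 : ℝ) < h := by exact_mod_cast hh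
    by_contra hneg
    push Not at hneg
    nlinarith
  have h1 := hI g (fun j => 3 * B + 4 ^ (h ^ 2) * (1 / 2 : ℝ) ^ j) (by
    intro j y
    rcases Nat.lt_or_ge j (2 * h ^ 2) with hj | hj
    · have h2 : (Bop s)^[j] g y ≤ 1 := Bop_iterate_le j hg1 y
      have h3 : (1 : ℝ) ≤ 4 ^ (h ^ 2) * (1 / 2 : ℝ) ^ j := by
        have h4 : (1 / 2 : ℝ) ^ (2 * h ^ 2) ≤ (1 / 2 : ℝ) ^ j :=
          pow_le_pow_of_le_one (by norm_num) (by norm_num) hj.le
        have h5 : (1 / 2 : ℝ) ^ (2 * h ^ 2) = (1 / 4) ^ (h ^ 2) := by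
          rw [pow_mul]
          norm_num
        have h6 : (4 : ℝ) ^ (h ^ 2) * (1 / 4) ^ (h ^ 2) = 1 := by
          rw [← mul_pow]
          norm_num
        calc (1 : ℝ) = 4 ^ (h ^ 2) * (1 / 4) ^ (h ^ 2) := h6.symm
          _ ≤ 4 ^ (h ^ 2) * (1 / 2 : ℝ) ^ j := by
              apply mul_le_mul_of_nonneg_left _ (by positivity)
              rw [← h5]
              exact h4
      linarith
    · obtain ⟨j', rfl⟩ := Nat.exists_eq_add_of_le' hj
      rw [Function.iterate_add_apply]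
      have h2 : (Bop s)^[j'] ((Bop s)^[2 * h ^ 2] g) y ≤ 3 * B :=
        Bop_iterate_le j' (fun y => Bop_smooth hh hg0 H y) y
      have h3 : (0 : ℝ) ≤ 4 ^ (h ^ 2) * (1 / 2 : ℝ) ^ (j' + 2 * h ^ 2) := by positivity
      linarith) z
  rw [beta_geom] at h1
  have h2 : 1 - 2 * p * (1 - p) + 2 * p * (1 - p) * (1 / 2) = 1 - p * (1 - p) := by ring
  rwa [h2] at h1

lemma stage (hp0 : 0 ≤ p) (hp1 : p ≤ 1) {s N h : ℕ} {I J : Finset ℕ} (hI : PB p s N I)
    (hIJ : Disjoint I J) (hh : 0 < h) {g : ℤ → ℝ} (hg0 : ∀ y, 0 ≤ g y) (hg1 : ∀ y, g y ≤ 1)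
    {B : ℝ} (H : ∀ y, Es p J (Av h s g) y ≤ B) (z : ℤ) :
    Es p (I ∪ J) g z ≤ 3 * B + 4 ^ (h ^ 2) * (1 - p * (1 - p)) ^ N := by
  rw [Es_union hIJ]
  apply scale_bound hI hh (fun y => Es_nonneg hp0 hp1 hg0 y)
    (fun y => Es_le_of_le hp0 hp1 hg1 y)
  intro y
  have h1 : ∑ i ∈ range h, Es p J g (y + i * s) =
      Es p J (fun y => ∑ i ∈ range h, g (y + i * s)) y := by
    rw [← Es_sum]
    apply Finset.sum_congr rfl
    intro i _
    rw [Es_shift]
  have h2 : Es p J (fun y => ∑ i ∈ range h, g (y + i * s)) y = h * Es p J (Av h s g) y := by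
    unfold Es Av
    rw [← Ex_mul_left]
    apply Ex_congr
    intro A _
    have h3 : (h : ℝ) ≠ 0 := by
      have : (0 : ℝ) < h := by exact_mod_cast hh
      exact this.ne'
    field_simp
  rw [h1, h2]
  exact mul_le_mul_of_nonneg_left (H y) (Nat.cast_nonneg h)

/-- `D` is `L`-separated. -/
def Sep (L : ℝ) (D : Set ℤ) : Prop := ∀ a ∈ D, ∀ b ∈ D, a < b → L ≤ ((b - a : ℤ) : ℝ)

lemma sep_card_aux {L : ℝ} (hL : 0 < L) (S : Finset ℕ) :
    (∀ a ∈ S, ∀ b ∈ S, a < b → L ≤ (b : ℝ) - a) → ∀ t : ℝ, 0 ≤ t → (∀ x ∈ S, (x : ℝ) ≤ t) →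
      S.card * L ≤ t + L := by
  induction S using Finset.induction_on_max with
  | empty => intro _ t ht _; simp; linarith
  | insert a S ha ih =>
    intro hsep t ht hat
    have haS : a ∉ S := fun h => lt_irrefl _ (ha a h)
    rw [Finset.card_insert_of_notMem haS]
    rcases S.eq_empty_or_nonempty with rfl | hne
    · simp
      exact ht
    · set m := S.max' hne with hm
      have hmS : m ∈ S := S.max'_mem hne
      have h1 := ih (fun x hx y hy => hsep x (Finset.mem_insert_of_mem hx) y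
        (Finset.mem_insert_of_mem hy)) m (Nat.cast_nonneg m) (fun x hx => by
          exact_mod_cast S.le_max' x hx)
      have h2 := hsep m (Finset.mem_insert_of_mem hmS) a (Finset.mem_insert_self a S) (ha m hmS)
      have h3 := hat a (Finset.mem_insert_self a S)
      push_cast
      linarith

open Classical in
/-- Indicator of a set of integers. -/
noncomputable def ind (D : Set ℤ) : ℤ → ℝ := fun y => if y ∈ D then 1 else 0

lemma ind_nonneg (D : Set ℤ) (y : ℤ) : 0 ≤ ind D y := by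
  unfold ind
  split_ifs <;> norm_num

lemma ind_le_one (D : Set ℤ) (y : ℤ) : ind D y ≤ 1 := by
  unfold ind
  split_ifs <;> norm_num

lemma sep_count {L : ℝ} (hL : 0 < L) {D : Set ℤ} (hD : Sep L D) (y : ℤ) (H : ℕ) :
    ∑ i ∈ range H, ind D (y + i) ≤ 1 + H / L := by
  classical
  have h1 : ∑ i ∈ range H, ind D (y + i) = (((range H).filter fun i : ℕ => y + i ∈ D).card : ℝ) := by
    unfold ind
    rw [Finset.sum_boole]
  rw [h1]
  have h2 := sep_card_aux hL ((range H).filter fun i : ℕ => y + i ∈ D) (by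
    intro a ha b hb hab
    rw [Finset.mem_filter] at ha hb
    have := hD _ ha.2 _ hb.2 (by omega)
    push_cast at this
    linarith) H (Nat.cast_nonneg H) (by
    intro x hx
    rw [Finset.mem_filter, Finset.mem_range] at hx
    exact_mod_cast hx.1.le)
  have h3 : 1 + (H : ℝ) / L = (H + L) / L := by field_simp; ring
  rw [h3, le_div_iff₀ hL]
  exact h2

lemma sum_range_mul' (x : ℕ → ℝ) (n t : ℕ) :
    ∑ k ∈ range (n * t), x k = ∑ i ∈ range n, ∑ j ∈ range t, x (i * t + j) := by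
  induction n with
  | zero => simp
  | succ n ih =>
    rw [Nat.succ_mul, Finset.sum_range_add, ih, Finset.sum_range_succ]

lemma Av_triple {h : ℕ} (hh : 0 < h) {L : ℝ} (hL : 0 < L) {D : Set ℤ} (hD : Sep L D) (y : ℤ) :
    Av h (h ^ 2) (Av h h (Av h 1 (ind D))) y ≤ 1 / (h : ℝ) ^ 3 + 1 / L := by
  have h1 : Av h (h ^ 2) (Av h h (Av h 1 (ind D))) y =
      (1 / (h : ℝ) ^ 3) * ∑ k ∈ range (h * (h * h)), ind D (y + k) := by
    rw [sum_range_mul' (fun k => ind D (y + k)) h (h * h)]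
    unfold Av
    rw [show (1 : ℝ) / (h : ℝ) ^ 3 = (1 / h) * ((1 / h) * (1 / h)) by
      have : (h : ℝ) ≠ 0 := by
        have : (0 : ℝ) < h := by exact_mod_cast hh
        exact this.ne'
      field_simp]
    rw [mul_assoc, Finset.mul_sum (a := (1 / (h : ℝ)) * (1 / h))]
    congr 1
    apply Finset.sum_congr rfl
    intro i _
    rw [sum_range_mul' (fun j => ind D (y + ((i * (h * h) + j : ℕ) : ℤ))) h h, mul_assoc]
    congr 1
    rw [Finset.mul_sum]
    apply Finset.sum_congr rfl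
    intro j _
    congr 1
    apply Finset.sum_congr rfl
    intro k _
    congr 1
    push_cast
    ring
  rw [h1]
  have h2 := sep_count hL hD y (h * (h * h))
  have h3 : (0 : ℝ) < h := by exact_mod_cast hh
  calc (1 / (h : ℝ) ^ 3) * ∑ k ∈ range (h * (h * h)), ind D (y + k)
      ≤ (1 / (h : ℝ) ^ 3) * (1 + ((h * (h * h) : ℕ) : ℝ) / L) :=
        mul_le_mul_of_nonneg_left h2 (by positivity)
    _ = 1 / (h : ℝ) ^ 3 + 1 / L := by
        push_cast
        field_simp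

lemma hit_bound_h (hp0 : 0 ≤ p) (hp1 : p ≤ 1) {M : ℕ} (hM : (1 - p * (1 - p)) ^ M ≤ 1 / 32)
    {h : ℕ} (hh : 0 < h) {w : ℕ} (hw : 6 * M * h ^ 2 ≤ w) (k : ℕ) {L : ℝ} (hL : 0 < L)
    {D : Set ℤ} (hD : Sep L D) (z : ℤ) :
    Es p (Ico k (k + w)) (ind D) z ≤ 40 * (1 / (h : ℝ) ^ 3 + 1 / L) := by
  have h0 : (0 : ℝ) < h := by exact_mod_cast hh
  have hx0 : 0 ≤ 1 - p * (1 - p) := by nlinarith
  -- the error term
  have herr : (4 : ℝ) ^ (h ^ 2) * (1 - p * (1 - p)) ^ (M * h ^ 2) ≤ 1 / (h : ℝ) ^ 3 := by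
    have e1 : (4 : ℝ) ^ (h ^ 2) * (1 - p * (1 - p)) ^ (M * h ^ 2) =
        (4 * (1 - p * (1 - p)) ^ M) ^ (h ^ 2) := by
      rw [mul_pow, ← pow_mul]
    rw [e1]
    have e2 : 4 * (1 - p * (1 - p)) ^ M ≤ 1 / 8 := by linarith
    have e3 : 0 ≤ 4 * (1 - p * (1 - p)) ^ M := by positivity
    calc (4 * (1 - p * (1 - p)) ^ M) ^ (h ^ 2) ≤ (1 / 8 : ℝ) ^ (h ^ 2) :=
          pow_le_pow_left₀ e3 e2 _
      _ ≤ (1 / 8 : ℝ) ^ h := by
          apply pow_le_pow_of_le_one (by norm_num) (by norm_num)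
          nlinarith
      _ = 1 / ((2 : ℝ) ^ h) ^ 3 := by
          rw [one_div_pow, ← pow_mul, mul_comm h 3, pow_mul]
          norm_num
      _ ≤ 1 / (h : ℝ) ^ 3 := by
          apply one_div_le_one_div_of_le (by positivity)
          apply pow_le_pow_left₀ h0.le
          exact_mod_cast (Nat.lt_two_pow_self (n := h)).le
  set err : ℝ := (4 : ℝ) ^ (h ^ 2) * (1 - p * (1 - p)) ^ (M * h ^ 2) with herr'
  -- the intervals
  set k1 := k + 2 * 1 * (M * h ^ 2) with hk1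
  set k2 := k1 + 2 * h * (M * h) with hk2
  set k3 := k2 + 2 * (h ^ 2) * M with hk3
  have hk1' : k ≤ k1 := by omega
  have hk2' : k1 ≤ k2 := by omega
  have hk3' : k2 ≤ k3 := by omega
  have hk4' : k3 ≤ k + w := by
    have : k3 = k + 6 * M * h ^ 2 := by rw [hk3, hk2, hk1]; ring
    omega
  have hP1 : PB p 1 (M * h ^ 2) (Ico k k1) := by
    have := PB_interval hp0 hp1 1 k (M * h ^ 2)
    rwa [mul_one (M * h ^ 2)] at this
  have hP2 : PB p h (M * h ^ 2) (Ico k1 k2) := by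
    have := PB_interval hp0 hp1 h k1 (M * h)
    have e : M * h * h = M * h ^ 2 := by ring
    rwa [e] at this
  have hP3 : PB p (h ^ 2) (M * h ^ 2) (Ico k2 k3) := PB_interval hp0 hp1 (h ^ 2) k2 M
  have hd3 : Disjoint (Ico k2 k3) (Ico k3 (k + w)) := Finset.Ico_disjoint_Ico_consecutive _ _ _
  have hd2 : Disjoint (Ico k1 k2) (Ico k2 (k + w)) := Finset.Ico_disjoint_Ico_consecutive _ _ _
  have hd1 : Disjoint (Ico k k1) (Ico k1 (k + w)) := Finset.Ico_disjoint_Ico_consecutive _ _ _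
  have hu3 : Ico k2 (k + w) = Ico k2 k3 ∪ Ico k3 (k + w) :=
    (Finset.Ico_union_Ico_eq_Ico hk3' hk4').symm
  have hu2 : Ico k1 (k + w) = Ico k1 k2 ∪ Ico k2 (k + w) :=
    (Finset.Ico_union_Ico_eq_Ico hk2' (hk3'.trans hk4')).symm
  have hu1 : Ico k (k + w) = Ico k k1 ∪ Ico k1 (k + w) :=
    (Finset.Ico_union_Ico_eq_Ico hk1' (hk2'.trans (hk3'.trans hk4'))).symm
  have g0 := ind_nonneg D
  have g1 := ind_le_one D
  have B3 : ∀ y, Es p (Ico k3 (k + w)) (Av h (h ^ 2) (Av h h (Av h 1 (ind D)))) y ≤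
      1 / (h : ℝ) ^ 3 + 1 / L := fun y => Es_le_of_le hp0 hp1 (fun y => Av_triple hh hL hD y) y
  have B2 : ∀ y, Es p (Ico k2 (k + w)) (Av h h (Av h 1 (ind D))) y ≤
      3 * (1 / (h : ℝ) ^ 3 + 1 / L) + err := by
    intro y
    rw [hu3]
    exact stage hp0 hp1 hP3 hd3 hh (fun y => Av_nonneg (fun y => Av_nonneg g0 y) y)
      (fun y => Av_le_one hh (fun y => Av_le_one hh g1 y) y) B3 y
  have B1 : ∀ y, Es p (Ico k1 (k + w)) (Av h 1 (ind D)) y ≤
      3 * (3 * (1 / (h : ℝ) ^ 3 + 1 / L) + err) + err := by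
    intro y
    rw [hu2]
    exact stage hp0 hp1 hP2 hd2 hh (fun y => Av_nonneg g0 y) (fun y => Av_le_one hh g1 y) B2 y
  have B0 : Es p (Ico k (k + w)) (ind D) z ≤
      3 * (3 * (3 * (1 / (h : ℝ) ^ 3 + 1 / L) + err) + err) + err := by
    rw [hu1]
    exact stage hp0 hp1 hP1 hd1 hh g0 g1 B1 z
  have hL' : 0 ≤ 1 / L := by positivity
  have := herr
  calc Es p (Ico k (k + w)) (ind D) z
      ≤ 3 * (3 * (3 * (1 / (h : ℝ) ^ 3 + 1 / L) + err) + err) + err := B0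
    _ ≤ 40 * (1 / (h : ℝ) ^ 3 + 1 / L) := by linarith

lemma exists_M (hp0 : 0 < p) (hp1 : p < 1) : ∃ M : ℕ, 0 < M ∧ (1 - p * (1 - p)) ^ M ≤ 1 / 32 := by
  have h1 : 1 - p * (1 - p) < 1 := by nlinarith
  have h0 : 0 ≤ 1 - p * (1 - p) := by nlinarith
  obtain ⟨M, hM⟩ := exists_pow_lt_of_lt_one (show (0 : ℝ) < 1 / 32 by norm_num) h1
  refine ⟨M + 1, Nat.succ_pos _, ?_⟩
  rw [pow_succ]
  have h2 : (1 - p * (1 - p)) ^ M * (1 - p * (1 - p)) ≤ (1 - p * (1 - p)) ^ M * 1 :=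
    mul_le_mul_of_nonneg_left h1.le (by positivity)
  linarith

/-- The weight `w ^ (-3/2)`. -/
noncomputable def om (w : ℕ) : ℝ := (w : ℝ) ^ (-(3 / 2) : ℝ)

lemma om_nonneg (w : ℕ) : 0 ≤ om w := by unfold om; positivity

lemma om_summable : Summable om := by
  unfold om
  exact Real.summable_nat_rpow.2 (by norm_num)

/-- **Hitting lemma.** The sum of a `p`-random subset of an interval of length `w` hits an
`L`-separated set with probability at most `C (w ^ (-3/2) + 1 / L)`. -/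
lemma hit_bound (hp0 : 0 < p) (hp1 : p < 1) : ∃ C : ℝ, 1 ≤ C ∧ ∀ (w : ℕ), 0 < w → ∀ (k : ℕ) (L : ℝ),
    0 < L → ∀ (D : Set ℤ), Sep L D → ∀ z : ℤ,
      Es p (Ico k (k + w)) (ind D) z ≤ C * (om w + 1 / L) := by
  obtain ⟨M, hM0, hM⟩ := exists_M hp0 hp1
  have hMr : (1 : ℝ) ≤ M := by exact_mod_cast hM0
  have hbase : (1 : ℝ) ≤ 30 * M := by linarith
  have hpow1 : (1 : ℝ) ≤ (30 * M : ℝ) ^ (3 / 2 : ℝ) := Real.one_le_rpow hbase (by norm_num)
  refine ⟨40 * (30 * M : ℝ) ^ (3 / 2 : ℝ), by linarith, ?_⟩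
  intro w hw k L hL D hD z
  have hw0 : (0 : ℝ) < w := by exact_mod_cast hw
  have hL' : 0 ≤ 1 / L := by positivity
  set K : ℝ := (30 * M : ℝ) ^ (3 / 2 : ℝ) with hK
  -- comparison: if `w ≤ 30 M x` with `x > 0` then `x ^ (-3/2) ≤ K w ^ (-3/2)`
  have hcomp : ∀ x : ℝ, 0 < x → (w : ℝ) ≤ 30 * M * x → x ^ (-(3 / 2) : ℝ) ≤ K * om w := by
    intro x hx hwx
    have h1 : (w : ℝ) / (30 * M) ≤ x := by
      rw [div_le_iff₀ (by linarith)]
      linarith
    have h2 : x ^ (-(3 / 2) : ℝ) ≤ ((w : ℝ) / (30 * M)) ^ (-(3 / 2) : ℝ) :=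
      Real.rpow_le_rpow_of_nonpos (by positivity) h1 (by norm_num)
    refine h2.trans (le_of_eq ?_)
    rw [Real.div_rpow hw0.le (by linarith), Real.rpow_neg (by linarith : (0 : ℝ) ≤ 30 * M)]
    unfold om
    rw [div_inv_eq_mul, mul_comm]
  rcases Nat.eq_zero_or_pos (Nat.sqrt (w / (6 * M))) with h0 | hpos
  · have h1 : w / (6 * M) < 1 := by
      have := Nat.sqrt_lt'.1 (show Nat.sqrt (w / (6 * M)) < 1 by omega)
      simpa using this
    have h2 : w < 6 * M := by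
      rw [Nat.div_lt_iff_lt_mul (by omega)] at h1
      omega
    have h3 : (w : ℝ) ≤ 30 * M * 1 := by
      have : (w : ℝ) ≤ 6 * M := by exact_mod_cast h2.le
      linarith
    have h4 := hcomp 1 one_pos h3
    rw [Real.one_rpow] at h4
    have h5 : Es p (Ico k (k + w)) (ind D) z ≤ 1 := Es_le_of_le hp0.le hp1.le (ind_le_one D) z
    have h6 : 0 ≤ om w := om_nonneg w
    nlinarith
  · set h := Nat.sqrt (w / (6 * M)) with hh
    have h1 : 6 * M * h ^ 2 ≤ w := by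
      have h2 : h * h ≤ w / (6 * M) := Nat.sqrt_le _
      have h3 : 6 * M * (w / (6 * M)) ≤ w := Nat.mul_div_le _ _
      calc 6 * M * h ^ 2 = 6 * M * (h * h) := by ring
        _ ≤ 6 * M * (w / (6 * M)) := Nat.mul_le_mul_left _ h2
        _ ≤ w := h3
    have h2 : (w : ℝ) ≤ 30 * M * (h : ℝ) ^ 2 := by
      have h3 : w / (6 * M) < (h + 1) * (h + 1) := Nat.lt_succ_sqrt _
      have h4 : w < (h + 1) * (h + 1) * (6 * M) := by
        rwa [Nat.div_lt_iff_lt_mul (by omega)] at h3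
      have h5 : (h + 1) * (h + 1) ≤ 4 * h ^ 2 := by nlinarith
      have h6 : (h + 1) * (h + 1) * (6 * M) ≤ 4 * h ^ 2 * (6 * M) := Nat.mul_le_mul_right _ h5
      have h7 : w ≤ 30 * M * h ^ 2 := by nlinarith
      exact_mod_cast h7
    have h3 := hit_bound_h hp0.le hp1.le hM hpos h1 k hL hD z
    have hhr : (0 : ℝ) < h := by exact_mod_cast hpos
    have h4 := hcomp ((h : ℝ) ^ 2) (by positivity) h2
    have h5 : ((h : ℝ) ^ 2) ^ (-(3 / 2) : ℝ) = 1 / (h : ℝ) ^ 3 := by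
      rw [← Real.rpow_natCast (h : ℝ) 2, ← Real.rpow_mul hhr.le, ← Real.rpow_natCast (h : ℝ) 3,
        one_div, ← Real.rpow_neg hhr.le]
      norm_num
    rw [h5] at h4
    nlinarith

end Pool.Agent.MP_a40b8c_co
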