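import Pool.Agent.Lib.MP_a40b8c_co.Block2

/-!
The exploration process and its exponential moment.
-/

namespace Pool.Agent.MP_a40b8c_co

open Finset

variable {p : ℝ}

lemma exp_neg_le_half {y : ℝ} (h0 : 0 ≤ y) (h1 : y ≤ 1) : Real.exp (-y) ≤ 1 - y / 2 := by
  have h2 : 1 + y ≤ Real.exp y := by linarith [Real.add_one_le_exp y]
  have h3 : Real.exp (-y) * Real.exp y = 1 := by
    rw [← Real.exp_add]
    simp
  have h4 : Real.exp (-y) * (1 + y) ≤ 1 :=
    (mul_le_mul_of_nonneg_left h2 (Real.exp_pos _).le).trans h3.le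
  have h5 : 1 ≤ (1 - y / 2) * (1 + y) := by nlinarith
  by_contra hlt
  push Not at hlt
  have h6 : (1 - y / 2) * (1 + y) < Real.exp (-y) * (1 + y) :=
    mul_lt_mul_of_pos_right hlt (by linarith)
  linarith

/-- The second half of a block. -/
def half (b : ℕ) : Finset ℕ := Ioc (b / 2) b

lemma half_card (b : ℕ) : (half b).card = b - b / 2 := by
  unfold half
  rw [Nat.card_Ioc]

/-- The constant in the block lemma. -/
noncomputable def kap (C c0 : ℝ) : ℝ := c0 ^ 2 / (8 * (1 + C * (2 * (∑' i, om i) + 4)))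

lemma kap_pos {C c0 : ℝ} (hC : 0 ≤ C) (hc0 : 0 < c0) : 0 < kap C c0 := by
  unfold kap
  have := om_tsum_nonneg
  positivity

/-- **Block lemma.** -/
lemma block_final {C c0 : ℝ} (hp0 : 0 ≤ p) (hp1 : p ≤ 1) (hC : 0 < C) (h : Hits p C)
    (hc0 : 0 < c0) {n b β : ℕ} (hn : 0 < n) (hbn : b ≤ n)
    (hom : ∀ j ∈ half b, om j ≤ 1 / (n : ℝ))
    {X : Finset ℤ} (hX : Sep ((n : ℝ) / 4) (X : Set ℤ)) (hXl : c0 * n ≤ X.card) (hXu : X.card ≤ n)
    {U : Finset ℤ} (hU : (U.card : ℝ) ≤ c0 / (10 * C) * (n : ℝ) ^ 2) (τ : ℤ) :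
    kap C c0 * (n * b) ≤
      Ex p (Ioc β (β + b)) (fun B => ((newVals (half b) X β τ B \ U).card : ℝ)) := by
  have hn0 : (0 : ℝ) < n := by exact_mod_cast hn
  set S : ℝ := ∑' i, om i with hS
  have hS0 : 0 ≤ S := om_tsum_nonneg
  set K : ℝ := 1 + C * (2 * S + 4) with hK
  have hK0 : 0 < K := by positivity
  set lam : ℝ := c0 / (2 * K) with hlam
  have hlam0 : 0 ≤ lam := by positivity
  have h1 := block_raw hp0 hp1 hC.le h (β := β) (b := b) (J := half b) (by
    intro j hj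
    unfold half at hj
    rw [Finset.mem_Ioc] at hj
    omega) (by
    intro j hj
    unfold half at hj
    rw [Finset.mem_Ioc] at hj
    omega) (L := (n : ℝ) / 4) (by positivity) hX U τ lam hlam0 hom
  refine le_trans ?_ h1
  set m : ℝ := ((half b).card : ℝ) with hm
  have hm0 : 0 ≤ m := Nat.cast_nonneg _
  have hmb : (b : ℝ) / 2 ≤ m := by
    rw [hm, half_card]
    have h2 : b ≤ 2 * (b - b / 2) := by omega
    have h3 : (b : ℝ) ≤ 2 * ((b - b / 2 : ℕ) : ℝ) := by exact_mod_cast h2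
    linarith
  have hmn : m ≤ n := by
    rw [hm, half_card]
    have : b - b / 2 ≤ n := by omega
    exact_mod_cast this
  have hXu' : (X.card : ℝ) ≤ n := by exact_mod_cast hXu
  have hX0 : (0 : ℝ) ≤ X.card := Nat.cast_nonneg _
  -- first term
  have e1 : (U.card : ℝ) * (C * (1 / (n : ℝ) + 1 / ((n : ℝ) / 4))) ≤ c0 * n / 2 := by
    have e2 : C * (1 / (n : ℝ) + 1 / ((n : ℝ) / 4)) = 5 * C / n := by field_simp; ring
    rw [e2]
    calc (U.card : ℝ) * (5 * C / n) ≤ c0 / (10 * C) * (n : ℝ) ^ 2 * (5 * C / n) :=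
          mul_le_mul_of_nonneg_right hU (by positivity)
      _ = c0 * n / 2 := by field_simp; ring
  have e3 : m * (c0 * n / 2) ≤
      m * X.card - m * ((U.card : ℝ) * (C * (1 / (n : ℝ) + 1 / ((n : ℝ) / 4)))) := by
    have : m * (c0 * n / 2) ≤ m * (X.card - (U.card : ℝ) * (C * (1 / (n : ℝ) + 1 / ((n : ℝ) / 4)))) := by
      apply mul_le_mul_of_nonneg_left _ hm0
      linarith
    linarith
  -- second term
  have e4 : m * X.card * (1 + C * (2 * S + m / ((n : ℝ) / 4))) ≤ m * n * K := by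
    have e5 : m / ((n : ℝ) / 4) ≤ 4 := by
      rw [div_le_iff₀ (by positivity)]
      linarith
    have e6 : 1 + C * (2 * S + m / ((n : ℝ) / 4)) ≤ K := by
      rw [hK]
      have : C * (2 * S + m / ((n : ℝ) / 4)) ≤ C * (2 * S + 4) :=
        mul_le_mul_of_nonneg_left (by linarith) hC.le
      linarith
    have e7 : 0 ≤ 1 + C * (2 * S + m / ((n : ℝ) / 4)) := by positivity
    calc m * X.card * (1 + C * (2 * S + m / ((n : ℝ) / 4)))
        ≤ m * n * (1 + C * (2 * S + m / ((n : ℝ) / 4))) := by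
          apply mul_le_mul_of_nonneg_right _ e7
          exact mul_le_mul_of_nonneg_left hXu' hm0
      _ ≤ m * n * K := mul_le_mul_of_nonneg_left e6 (by positivity)
  have e8 : kap C c0 * (n * b) ≤ 2 * lam * (m * (c0 * n / 2)) - lam ^ 2 * (m * n * K) := by
    have e9 : 2 * lam * (m * (c0 * n / 2)) - lam ^ 2 * (m * n * K) = c0 ^ 2 / (4 * K) * (n * m) := by
      rw [hlam]
      field_simp
      ring
    have e10 : kap C c0 * (n * b) = c0 ^ 2 / (4 * K) * (n * (b / 2)) := by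
      unfold kap
      rw [← hS, ← hK]
      field_simp
      ring
    rw [e9, e10]
    apply mul_le_mul_of_nonneg_left _ (by positivity)
    exact mul_le_mul_of_nonneg_left hmb hn0.le
  have e11 := mul_le_mul_of_nonneg_left e3 (by positivity : 0 ≤ 2 * lam)
  have e12 := mul_le_mul_of_nonneg_left e4 (sq_nonneg lam)
  linarith

lemma newVals_card_le (J : Finset ℕ) (X : Finset ℤ) (β : ℕ) (τ : ℤ) (B : Finset ℕ) :
    (newVals J X β τ B).card ≤ J.card * X.card := by
  unfold newVals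
  exact Finset.card_image_le.trans (Finset.card_product J X).le

lemma block_exp {C c0 : ℝ} (hp0 : 0 ≤ p) (hp1 : p ≤ 1) (hC : 0 < C) (h : Hits p C)
    (hc0 : 0 < c0) {n b β : ℕ} (hn : 0 < n) (hb : 0 < b) (hbn : b ≤ n)
    (hom : ∀ j ∈ half b, om j ≤ 1 / (n : ℝ))
    {X : Finset ℤ} (hX : Sep ((n : ℝ) / 4) (X : Set ℤ)) (hXl : c0 * n ≤ X.card) (hXu : X.card ≤ n)
    {U : Finset ℤ} (hU : (U.card : ℝ) ≤ c0 / (10 * C) * (n : ℝ) ^ 2) (τ : ℤ) :
    Ex p (Ioc β (β + b)) (fun B => Real.exp (-(((newVals (half b) X β τ B \ U).card : ℝ) / (n * b)))) ≤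
      1 - kap C c0 / 2 := by
  have hn0 : (0 : ℝ) < n := by exact_mod_cast hn
  have hb0 : (0 : ℝ) < b := by exact_mod_cast hb
  have h1 := block_final hp0 hp1 hC h hc0 hn hbn hom hX hXl hXu hU τ (β := β)
  have h2 : Ex p (Ioc β (β + b)) (fun B => Real.exp (-(((newVals (half b) X β τ B \ U).card : ℝ) / (n * b)))) ≤
      Ex p (Ioc β (β + b)) (fun B => 1 - (1 / (2 * (n * b))) * ((newVals (half b) X β τ B \ U).card : ℝ)) := by
    apply Ex_mono hp0 hp1
    intro B _
    have h3 : ((newVals (half b) X β τ B \ U).card : ℝ) ≤ n * b := by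
      have h4 : (newVals (half b) X β τ B \ U).card ≤ n * b := by
        calc (newVals (half b) X β τ B \ U).card ≤ (newVals (half b) X β τ B).card :=
              Finset.card_le_card Finset.sdiff_subset
          _ ≤ (half b).card * X.card := newVals_card_le _ _ _ _ _
          _ ≤ b * n := by
              apply Nat.mul_le_mul _ hXu
              rw [half_card]
              omega
          _ = n * b := Nat.mul_comm _ _
      exact_mod_cast h4
    have h5 := exp_neg_le_half (y := ((newVals (half b) X β τ B \ U).card : ℝ) / (n * b))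
      (by positivity) (by rw [div_le_one (by positivity)]; exact h3)
    refine h5.trans (le_of_eq ?_)
    field_simp
  refine h2.trans ?_
  rw [Ex_sub, Ex_const, Ex_mul_left]
  have h6 : kap C c0 / 2 = (1 / (2 * ((n : ℝ) * b))) * (kap C c0 * (n * b)) := by field_simp
  rw [h6]
  have h7 := mul_le_mul_of_nonneg_left h1 (show (0 : ℝ) ≤ 1 / (2 * ((n : ℝ) * b)) by positivity)
  linarith

/-- Values of the prefix sums on the left part. -/
def XX (n : ℕ) (A : Finset ℕ) : Finset ℤ := (Ioc (n / 4) (n / 2)).image (pre A)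

/-- Differences between prefix sums up to `m` on the right and those on the left. -/
def UU (n m : ℕ) (A : Finset ℕ) : Finset ℤ :=
  (Ioc (n / 2) m ×ˢ XX n A).image fun q => pre A q.1 - q.2

/-- The set `A` has many elements in the left part. -/
def Nice (c0 : ℝ) (n : ℕ) (A : Finset ℕ) : Prop :=
  c0 * n ≤ ((A ∩ Ioc (n / 4) (n / 2)).card : ℝ)

lemma pre_mono {A : Finset ℕ} {a b : ℕ} (hab : a ≤ b) : pre A a ≤ pre A b := by
  have h := pre_sub (A := A) hab
  have h2 : (0 : ℤ) ≤ ∑ m ∈ A ∩ Ioc a b, (m : ℤ) := Finset.sum_nonneg (fun _ _ => by positivity)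
  linarith

lemma pre_lt_imp {A : Finset ℕ} {a b : ℕ} (h : pre A a < pre A b) :
    ∃ m ∈ A, a < m ∧ m ≤ b ∧ (m : ℤ) ≤ pre A b - pre A a := by
  have hab : a ≤ b := by
    by_contra hlt
    push Not at hlt
    exact absurd (pre_mono (A := A) hlt.le) (not_le.2 h)
  have h1 := pre_sub (A := A) hab
  have hne : (A ∩ Ioc a b).Nonempty := by
    rw [Finset.nonempty_iff_ne_empty]
    intro h2
    rw [h2, Finset.sum_empty] at h1
    omega
  obtain ⟨m, hm⟩ := hne
  have hm' := hm
  rw [Finset.mem_inter, Finset.mem_Ioc] at hm'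
  refine ⟨m, hm'.1, hm'.2.1, hm'.2.2, ?_⟩
  rw [h1]
  exact Finset.single_le_sum (f := fun m : ℕ => (m : ℤ)) (fun _ _ => by positivity) hm

lemma XX_sep (n : ℕ) (A : Finset ℕ) : Sep ((n : ℝ) / 4) (XX n A : Set ℤ) := by
  intro a ha b hb hab
  rw [Finset.mem_coe] at ha hb
  unfold XX at ha hb
  rw [Finset.mem_image] at ha hb
  obtain ⟨k, hk, rfl⟩ := ha
  obtain ⟨k', hk', rfl⟩ := hb
  obtain ⟨m, _, hkm, _, hm⟩ := pre_lt_imp hab
  rw [Finset.mem_Ioc] at hk
  have h1 : n < 4 * m := by omega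
  have h2 : (n : ℝ) < 4 * m := by exact_mod_cast h1
  have h3 : (m : ℝ) ≤ ((pre A k' - pre A k : ℤ) : ℝ) := by exact_mod_cast hm
  linarith

lemma XX_card_le (n : ℕ) (A : Finset ℕ) : (XX n A).card ≤ n := by
  unfold XX
  refine Finset.card_image_le.trans ?_
  rw [Nat.card_Ioc]
  omega

lemma XX_card_ge (n : ℕ) (A : Finset ℕ) : (A ∩ Ioc (n / 4) (n / 2)).card ≤ (XX n A).card := by
  apply Finset.card_le_card_of_injOn (pre A)
  · intro m hm
    rw [Finset.mem_coe, Finset.mem_inter] at hm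
    exact Finset.mem_coe.2 (Finset.mem_image_of_mem _ hm.2)
  · intro a ha b hb hab
    by_contra hne
    rw [Finset.mem_coe, Finset.mem_inter] at ha hb
    rcases lt_or_gt_of_ne hne with hlt | hlt
    · have h1 := pre_sub (A := A) hlt.le
      have h2 : (b : ℤ) ≤ ∑ m ∈ A ∩ Ioc a b, (m : ℤ) :=
        Finset.single_le_sum (f := fun m : ℕ => (m : ℤ)) (fun _ _ => by positivity)
          (by rw [Finset.mem_inter, Finset.mem_Ioc]; exact ⟨hb.1, hlt, le_rfl⟩)
      omega
    · have h1 := pre_sub (A := A) (le_of_lt hlt)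
      have h2 : (a : ℤ) ≤ ∑ m ∈ A ∩ Ioc b a, (m : ℤ) :=
        Finset.single_le_sum (f := fun m : ℕ => (m : ℤ)) (fun _ _ => by positivity)
          (by rw [Finset.mem_inter, Finset.mem_Ioc]; exact ⟨ha.1, hlt, le_rfl⟩)
      omega

section extend

variable {A B : Finset ℕ} {β b : ℕ}

lemma pre_union_left (hB : B ⊆ Ioc β (β + b)) {k : ℕ} (hk : k ≤ β) :
    pre (A ∪ B) k = pre A k := by
  unfold pre
  congr 1
  ext x
  simp only [Finset.mem_filter, Finset.mem_union]
  constructor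
  · rintro ⟨h1 | h1, h2⟩
    · exact ⟨h1, h2⟩
    · have := Finset.mem_Ioc.1 (hB h1)
      omega
  · rintro ⟨h1, h2⟩
    exact ⟨Or.inl h1, h2⟩

lemma pre_union_right (hA : A ⊆ Icc 1 β) (hB : B ⊆ Ioc β (β + b)) (j : ℕ) :
    pre (A ∪ B) (β + j) = pre A β + (pre B (β + j) - pre B β) := by
  have hdisj : Disjoint A B := by
    rw [Finset.disjoint_left]
    intro x hx hx'
    have h1 := Finset.mem_Icc.1 (hA hx)
    have h2 := Finset.mem_Ioc.1 (hB hx')
    omega
  have h1 : pre B β = 0 := by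
    unfold pre
    apply Finset.sum_eq_zero
    intro x hx
    rw [Finset.mem_filter] at hx
    have := Finset.mem_Ioc.1 (hB hx.1)
    omega
  have h2 : (A ∪ B).filter (· ≤ β + j) = A.filter (· ≤ β) ∪ B.filter (· ≤ β + j) := by
    ext x
    simp only [Finset.mem_filter, Finset.mem_union]
    constructor
    · rintro ⟨h1 | h1, h2⟩
      · left
        have := Finset.mem_Icc.1 (hA h1)
        exact ⟨h1, this.2⟩
      · right
        exact ⟨h1, h2⟩
    · rintro (⟨h1, h2⟩ | ⟨h1, h2⟩)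
      · exact ⟨Or.inl h1, by omega⟩
      · exact ⟨Or.inr h1, h2⟩
  rw [h1]
  unfold pre
  rw [h2, Finset.sum_union]
  · ring
  · exact Finset.disjoint_of_subset_left (Finset.filter_subset _ _)
      (Finset.disjoint_of_subset_right (Finset.filter_subset _ _) hdisj)

lemma XX_union (hB : B ⊆ Ioc β (β + b)) {n : ℕ} (hn : n / 2 ≤ β) : XX n (A ∪ B) = XX n A := by
  unfold XX
  apply Finset.image_congr
  intro k hk
  rw [Finset.mem_coe, Finset.mem_Ioc] at hk
  exact pre_union_left hB (by omega)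

lemma Nice_union (hB : B ⊆ Ioc β (β + b)) {n : ℕ} (hn : n / 2 ≤ β) (c0 : ℝ) :
    Nice c0 n (A ∪ B) ↔ Nice c0 n A := by
  unfold Nice
  have : (A ∪ B) ∩ Ioc (n / 4) (n / 2) = A ∩ Ioc (n / 4) (n / 2) := by
    ext x
    simp only [Finset.mem_inter, Finset.mem_union, Finset.mem_Ioc]
    constructor
    · rintro ⟨h1 | h1, h2⟩
      · exact ⟨h1, h2⟩
      · have := Finset.mem_Ioc.1 (hB h1)
        omega
    · rintro ⟨h1, h2⟩
      exact ⟨Or.inl h1, h2⟩
  rw [this]

lemma UU_union_sub (hB : B ⊆ Ioc β (β + b)) {n : ℕ} (hn : n / 2 ≤ β) :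
    UU n β A ⊆ UU n (β + b) (A ∪ B) := by
  unfold UU
  rw [XX_union hB hn]
  intro v hv
  rw [Finset.mem_image] at hv ⊢
  obtain ⟨q, hq, rfl⟩ := hv
  rw [Finset.mem_product, Finset.mem_Ioc] at hq
  refine ⟨q, ?_, ?_⟩
  · rw [Finset.mem_product, Finset.mem_Ioc]
    exact ⟨⟨hq.1.1, by omega⟩, hq.2⟩
  · rw [pre_union_left hB hq.1.2]

lemma newVals_sub (hA : A ⊆ Icc 1 β) (hB : B ⊆ Ioc β (β + b)) {n : ℕ} (hn : n / 2 ≤ β) :
    newVals (half b) (XX n A) β (pre A β) B ⊆ UU n (β + b) (A ∪ B) := by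
  unfold UU newVals
  rw [XX_union hB hn]
  intro v hv
  rw [Finset.mem_image] at hv ⊢
  obtain ⟨q, hq, rfl⟩ := hv
  rw [Finset.mem_product] at hq
  unfold half at hq
  rw [Finset.mem_Ioc] at hq
  refine ⟨(β + q.1, q.2), ?_, ?_⟩
  · rw [Finset.mem_product, Finset.mem_Ioc]
    refine ⟨⟨?_, ?_⟩, hq.2⟩
    · simp only
      omega
    · simp only
      omega
  · simp only
    rw [pre_union_right hA hB]

lemma UU_card_ge (hA : A ⊆ Icc 1 β) (hB : B ⊆ Ioc β (β + b)) {n : ℕ} (hn : n / 2 ≤ β) :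
    (UU n β A).card + (newVals (half b) (XX n A) β (pre A β) B \ UU n β A).card ≤
      (UU n (β + b) (A ∪ B)).card := by
  rw [← Finset.card_union_of_disjoint Finset.disjoint_sdiff]
  apply Finset.card_le_card
  apply Finset.union_subset (UU_union_sub hB hn)
  exact Finset.sdiff_subset.trans (newVals_sub hA hB hn)

end extend

open Classical in
/-- The truncated exponential functional. -/
noncomputable def FF (C c0 : ℝ) (n b m : ℕ) (A : Finset ℕ) : ℝ :=
  if Nice c0 n A ∧ ((UU n m A).card : ℝ) ≤ c0 / (10 * C) * (n : ℝ) ^ 2 then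
    Real.exp (-(((UU n m A).card : ℝ) / (n * b))) else 0

lemma FF_nonneg (C c0 : ℝ) (n b m : ℕ) (A : Finset ℕ) : 0 ≤ FF C c0 n b m A := by
  unfold FF
  split_ifs
  · exact (Real.exp_pos _).le
  · exact le_rfl

lemma FF_step {C c0 : ℝ} (hp0 : 0 ≤ p) (hp1 : p ≤ 1) (hC : 0 < C) (h : Hits p C)
    (hc0 : 0 < c0) {n b β : ℕ} (hn : 0 < n) (hb : 0 < b) (hbn : b ≤ n)
    (hom : ∀ j ∈ half b, om j ≤ 1 / (n : ℝ)) (hβ : n / 2 ≤ β)
    {A : Finset ℕ} (hA : A ⊆ Icc 1 β) :
    Ex p (Ioc β (β + b)) (fun B => FF C c0 n b (β + b) (A ∪ B)) ≤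
      (1 - kap C c0 / 2) * FF C c0 n b β A := by
  have hn0 : (0 : ℝ) < n := by exact_mod_cast hn
  have hb0 : (0 : ℝ) < b := by exact_mod_cast hb
  by_cases hgood : Nice c0 n A ∧ ((UU n β A).card : ℝ) ≤ c0 / (10 * C) * (n : ℝ) ^ 2
  · have h1 : ∀ B ⊆ Ioc β (β + b), FF C c0 n b (β + b) (A ∪ B) ≤
        Real.exp (-(((UU n β A).card : ℝ) / (n * b))) *
          Real.exp (-(((newVals (half b) (XX n A) β (pre A β) B \ UU n β A).card : ℝ) / (n * b))) := by
      intro B hB
      rw [← Real.exp_add]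
      unfold FF
      split_ifs
      · apply Real.exp_le_exp.2
        have h2 := UU_card_ge hA hB hβ
        have h3 : ((UU n β A).card : ℝ) +
            ((newVals (half b) (XX n A) β (pre A β) B \ UU n β A).card : ℝ) ≤
            ((UU n (β + b) (A ∪ B)).card : ℝ) := by exact_mod_cast h2
        have h4 := div_le_div_of_nonneg_right h3 (show (0 : ℝ) ≤ n * b by positivity)
        rw [add_div] at h4
        linarith
      · positivity
    have h2 : FF C c0 n b β A = Real.exp (-(((UU n β A).card : ℝ) / (n * b))) := by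
      unfold FF
      rw [if_pos hgood]
    rw [h2]
    refine (Ex_mono hp0 hp1 h1).trans ?_
    rw [Ex_mul_left, mul_comm]
    apply mul_le_mul_of_nonneg_right _ (Real.exp_pos _).le
    have hXl : c0 * n ≤ (XX n A).card := hgood.1.trans (by exact_mod_cast XX_card_ge n A)
    exact block_exp hp0 hp1 hC h hc0 hn hb hbn hom (XX_sep n A) hXl (XX_card_le n A) hgood.2 _
  · have h2 : FF C c0 n b β A = 0 := by
      unfold FF
      rw [if_neg hgood]
    rw [h2, mul_zero]
    have h3 : ∀ B ⊆ Ioc β (β + b), FF C c0 n b (β + b) (A ∪ B) = 0 := by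
      intro B hB
      unfold FF
      rw [if_neg]
      rintro ⟨h4, h5⟩
      apply hgood
      refine ⟨(Nice_union hB hβ c0).1 h4, ?_⟩
      have h6 := Finset.card_le_card (UU_union_sub (A := A) hB hβ)
      have h7 : ((UU n β A).card : ℝ) ≤ ((UU n (β + b) (A ∪ B)).card : ℝ) := by exact_mod_cast h6
      linarith
    rw [Ex_congr h3, Ex_const]

lemma FF_iterate {C c0 : ℝ} (hp0 : 0 ≤ p) (hp1 : p ≤ 1) (hC : 0 < C) (h : Hits p C)
    (hc0 : 0 < c0) (hk : kap C c0 ≤ 2) {n b : ℕ} (hn : 0 < n) (hb : 0 < b) (hbn : b ≤ n)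
    (hom : ∀ j ∈ half b, om j ≤ 1 / (n : ℝ)) (t : ℕ) :
    Ex p (Icc 1 (n / 2 + t * b)) (FF C c0 n b (n / 2 + t * b)) ≤ (1 - kap C c0 / 2) ^ t := by
  induction t with
  | zero =>
    rw [pow_zero, zero_mul, add_zero]
    calc Ex p (Icc 1 (n / 2)) (FF C c0 n b (n / 2)) ≤ Ex p (Icc 1 (n / 2)) (fun _ => 1) := by
          apply Ex_mono hp0 hp1
          intro A _
          unfold FF
          split_ifs
          · rw [Real.exp_le_one_iff, neg_nonpos]
            positivity
          · norm_num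
      _ = 1 := Ex_const _ _
  | succ t ih =>
    set β := n / 2 + t * b with hβ
    have e1 : n / 2 + (t + 1) * b = β + b := by rw [hβ]; ring
    have e2 : Icc 1 (β + b) = Icc 1 β ∪ Ioc β (β + b) := by
      ext x
      simp only [Finset.mem_Icc, Finset.mem_union, Finset.mem_Ioc]
      omega
    have e3 : Disjoint (Icc 1 β) (Ioc β (β + b)) := by
      rw [Finset.disjoint_left]
      intro x hx hx'
      rw [Finset.mem_Icc] at hx
      rw [Finset.mem_Ioc] at hx'
      omega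
    rw [e1, e2, Ex_union e3]
    calc Ex p (Icc 1 β) (fun A => Ex p (Ioc β (β + b)) (fun B => FF C c0 n b (β + b) (A ∪ B)))
        ≤ Ex p (Icc 1 β) (fun A => (1 - kap C c0 / 2) * FF C c0 n b β A) := by
          apply Ex_mono hp0 hp1
          intro A hA
          exact FF_step hp0 hp1 hC h hc0 hn hb hbn hom (by omega) hA
      _ = (1 - kap C c0 / 2) * Ex p (Icc 1 β) (FF C c0 n b β) := Ex_mul_left _ _ _
      _ ≤ (1 - kap C c0 / 2) * (1 - kap C c0 / 2) ^ t := by
          apply mul_le_mul_of_nonneg_left ih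
          linarith
      _ = (1 - kap C c0 / 2) ^ (t + 1) := by rw [pow_succ]; ring

end Pool.Agent.MP_a40b8c_co
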