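import Pool.Agent.Lib.MP_a40b8c_co.Basic

/-!
Smoothing: the sum of a `p`-random subset of an interval of length `w` hits an `L`-separated set
with probability `O(w^{-3/2} + 1 / L)`.
-/

namespace Pool.Agent.MP_a40b8c_co

open Finset

variable {p : ℝ}

/-- Expectation of `g (z + sum of a p-random subset of I)`. -/
noncomputable def Es (p : ℝ) (I : Finset ℕ) (g : ℤ → ℝ) (z : ℤ) : ℝ :=
  Ex p I (fun A => g (z + ∑ m ∈ A, (m : ℤ)))

@[simp] lemma Es_empty (g : ℤ → ℝ) (z : ℤ) : Es p ∅ g z = g z := by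
  simp [Es]

lemma Es_insert {I : Finset ℕ} {m : ℕ} (hm : m ∉ I) (g : ℤ → ℝ) (z : ℤ) :
    Es p (insert m I) g z = (1 - p) * Es p I g z + p * Es p I g (z + m) := by
  unfold Es
  rw [Ex_insert hm]
  congr 2
  apply Ex_congr
  intro A hA
  rw [Finset.sum_insert (fun h => hm (hA h))]
  congr 1
  ring

lemma Es_union {I J : Finset ℕ} (hIJ : Disjoint I J) (g : ℤ → ℝ) (z : ℤ) :
    Es p (I ∪ J) g z = Es p I (Es p J g) z := by
  unfold Es
  rw [Ex_union hIJ]
  apply Ex_congr
  intro A hA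
  apply Ex_congr
  intro B hB
  rw [Finset.sum_union (Finset.disjoint_of_subset_left hA (Finset.disjoint_of_subset_right hB hIJ))]
  congr 1
  ring

lemma Es_le_of_le (hp0 : 0 ≤ p) (hp1 : p ≤ 1) {I : Finset ℕ} {g : ℤ → ℝ} {c : ℝ}
    (h : ∀ y, g y ≤ c) (z : ℤ) : Es p I g z ≤ c := by
  unfold Es
  calc Ex p I (fun A => g (z + ∑ m ∈ A, (m : ℤ))) ≤ Ex p I (fun _ => c) :=
        Ex_mono hp0 hp1 (fun A _ => h _)
    _ = c := Ex_const I c

lemma Es_nonneg (hp0 : 0 ≤ p) (hp1 : p ≤ 1) {I : Finset ℕ} {g : ℤ → ℝ}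
    (h : ∀ y, 0 ≤ g y) (z : ℤ) : 0 ≤ Es p I g z :=
  Ex_nonneg hp0 hp1 (fun A _ => h _)

lemma Es_shift (I : Finset ℕ) (g : ℤ → ℝ) (z t : ℤ) :
    Es p I g (z + t) = Es p I (fun y => g (y + t)) z := by
  unfold Es
  apply Ex_congr
  intro A _
  congr 1
  ring

lemma Es_sum {ι : Type*} (I : Finset ℕ) (s : Finset ι) (g : ι → ℤ → ℝ) (z : ℤ) :
    ∑ i ∈ s, Es p I (g i) z = Es p I (fun y => ∑ i ∈ s, g i y) z := by
  unfold Es
  rw [Ex_sum]

/-- The averaging operator with step `s`. -/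
noncomputable def Bop (s : ℕ) (g : ℤ → ℝ) : ℤ → ℝ := fun z => (g z + g (z + s)) / 2

lemma Bop_le {s : ℕ} {g : ℤ → ℝ} {c : ℝ} (h : ∀ y, g y ≤ c) (y : ℤ) : Bop s g y ≤ c := by
  unfold Bop
  have h1 := h y
  have h2 := h (y + s)
  linarith

lemma Bop_iterate_le {s : ℕ} (j : ℕ) : ∀ {g : ℤ → ℝ} {c : ℝ} (_ : ∀ y, g y ≤ c) (y : ℤ),
    (Bop s)^[j] g y ≤ c := by
  induction j with
  | zero => intro g c h y; simpa using h y
  | succ j ih =>
    intro g c h y
    rw [Function.iterate_succ_apply]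
    exact ih (Bop_le h) y

lemma Es_Bop (I : Finset ℕ) (s : ℕ) (g : ℤ → ℝ) (z : ℤ) :
    2 * Es p I (Bop s g) z = Es p I g z + Es p I g (z + s) := by
  unfold Es
  rw [← Ex_mul_left, ← Ex_add]
  apply Ex_congr
  intro A _
  unfold Bop
  have : z + ∑ m ∈ A, (m : ℤ) + s = z + s + ∑ m ∈ A, (m : ℤ) := by ring
  rw [this]
  ring

/-- The binomial average of a sequence. -/
noncomputable def beta (r : ℝ) : ℕ → (ℕ → ℝ) → ℝ
  | 0, b => b 0
  | (N + 1), b => (1 - r) * beta r N b + r * beta r N (fun j => b (j + 1))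

lemma beta_mono {r : ℝ} (hr0 : 0 ≤ r) (hr1 : r ≤ 1) (N : ℕ) : ∀ {b b' : ℕ → ℝ}
    (_ : ∀ j, b j ≤ b' j), beta r N b ≤ beta r N b' := by
  induction N with
  | zero => intro b b' h; exact h 0
  | succ N ih =>
    intro b b' h
    unfold beta
    have h1 := ih h
    have h2 := ih (b := fun j => b (j + 1)) (b' := fun j => b' (j + 1)) (fun j => h (j + 1))
    have h3 : 0 ≤ 1 - r := by linarith
    exact add_le_add (mul_le_mul_of_nonneg_left h1 h3) (mul_le_mul_of_nonneg_left h2 hr0)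

lemma beta_geom (r x c : ℝ) (N : ℕ) : ∀ d : ℝ,
    beta r N (fun j => c + d * x ^ j) = c + d * (1 - r + r * x) ^ N := by
  induction N with
  | zero => intro d; simp [beta]
  | succ N ih =>
    intro d
    unfold beta
    rw [ih]
    have : (fun j : ℕ => c + d * x ^ (j + 1)) = fun j => c + (d * x) * x ^ j := by
      funext j
      rw [pow_succ]
      ring
    rw [this, ih, pow_succ]
    ring

/-- `I` contains at least `N` disjoint pairs with difference `s`, in the sense of this bound. -/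
def PB (p : ℝ) (s N : ℕ) (I : Finset ℕ) : Prop :=
  ∀ (g : ℤ → ℝ) (b : ℕ → ℝ), (∀ j y, (Bop s)^[j] g y ≤ b j) →
    ∀ z, Es p I g z ≤ beta (2 * p * (1 - p)) N b

lemma PB_base (hp0 : 0 ≤ p) (hp1 : p ≤ 1) (s : ℕ) (I : Finset ℕ) : PB p s 0 I := by
  intro g b h z
  exact Es_le_of_le hp0 hp1 (fun y => h 0 y) z

lemma PB_step (hp0 : 0 ≤ p) (hp1 : p ≤ 1) {s N m : ℕ} {I : Finset ℕ} (h : PB p s N I)
    (hs : 0 < s) (hm : m ∉ I) (hms : m + s ∉ I) :
    PB p s (N + 1) (insert m (insert (m + s) I)) := by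
  intro g b hb z
  have hm' : m ∉ insert (m + s) I := by
    rw [Finset.mem_insert]
    rintro (h | h)
    · omega
    · exact hm h
  rw [Es_insert hm', Es_insert hms, Es_insert hms]
  have h1 := h g b hb z
  have h2 := h g b hb (z + m + (m + s : ℕ))
  have h3 := h (Bop s g) (fun j => b (j + 1)) (fun j y => by
    have := hb (j + 1) y
    rwa [Function.iterate_succ_apply] at this) (z + m)
  have h4 := Es_Bop (p := p) I s g (z + m)
  have h5 : z + ((m + s : ℕ) : ℤ) = z + m + s := by push_cast; ring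
  rw [h5]
  unfold beta
  have hq : 0 ≤ 1 - p := by linarith
  have e1 : (1 - p) * ((1 - p) * Es p I g z + p * Es p I g (z + m + s)) +
      p * ((1 - p) * Es p I g (z + m) + p * Es p I g (z + m + (m + s : ℕ))) =
      (1 - p) ^ 2 * Es p I g z + p ^ 2 * Es p I g (z + m + (m + s : ℕ)) +
      2 * p * (1 - p) * Es p I (Bop s g) (z + m) := by
    linear_combination (-p * (1 - p)) * h4
  rw [e1]
  have h6 : (1 - p) ^ 2 * Es p I g z ≤ (1 - p) ^ 2 * beta (2 * p * (1 - p)) N b :=
    mul_le_mul_of_nonneg_left h1 (by positivity)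
  have h7 : p ^ 2 * Es p I g (z + m + (m + s : ℕ)) ≤ p ^ 2 * beta (2 * p * (1 - p)) N b :=
    mul_le_mul_of_nonneg_left h2 (by positivity)
  have h8 : 2 * p * (1 - p) * Es p I (Bop s g) (z + m) ≤
      2 * p * (1 - p) * beta (2 * p * (1 - p)) N (fun j => b (j + 1)) :=
    mul_le_mul_of_nonneg_left h3 (by positivity)
  nlinarith [h6, h7, h8]

/-- A half-filled group of pairs. -/
lemma PB_group_aux (hp0 : 0 ≤ p) (hp1 : p ≤ 1) {s N a : ℕ} {J : Finset ℕ} (h : PB p s N J)
    (hJ : ∀ x ∈ J, x < a) (t : ℕ) (ht : t ≤ s) :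
    PB p s (N + t) (J ∪ Ico a (a + t) ∪ Ico (a + s) (a + s + t)) := by
  induction t with
  | zero => simpa using h
  | succ t ih =>
    have ih' := ih (by omega)
    have h1 := PB_step hp0 hp1 (m := a + t) ih' (by omega) (by
      simp only [Finset.mem_union, Finset.mem_Ico, not_or, not_and, not_lt]
      refine ⟨⟨fun hx => ?_, ?_⟩, ?_⟩
      · have := hJ _ hx
        omega
      · omega
      · omega) (by
      simp only [Finset.mem_union, Finset.mem_Ico, not_or, not_and, not_lt]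
      refine ⟨⟨fun hx => ?_, ?_⟩, ?_⟩
      · have := hJ _ hx
        omega
      · omega
      · omega)
    have h2 : insert (a + t) (insert (a + t + s) (J ∪ Ico a (a + t) ∪ Ico (a + s) (a + s + t))) =
        J ∪ Ico a (a + (t + 1)) ∪ Ico (a + s) (a + s + (t + 1)) := by
      ext x
      simp only [Finset.mem_insert, Finset.mem_union, Finset.mem_Ico]
      constructor
      · rintro (h | h | (h | h) | h)
        · left; right; omega
        · right; omega
        · left; left; exact h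
        · left; right; omega
        · right; omega
      · rintro ((h | h) | h)
        · right; right; left; left; exact h
        · rcases Nat.lt_or_ge x (a + t) with h' | h'
          · right; right; left; right; omega
          · left; omega
        · rcases Nat.lt_or_ge x (a + s + t) with h' | h'
          · right; right; right; omega
          · right; left; omega
    rw [h2] at h1
    exact h1

lemma PB_group (hp0 : 0 ≤ p) (hp1 : p ≤ 1) {s N a : ℕ} {J : Finset ℕ} (h : PB p s N J)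
    (hJ : ∀ x ∈ J, x < a) :
    PB p s (N + s) (J ∪ Ico a (a + 2 * s)) := by
  have h1 := PB_group_aux hp0 hp1 h hJ s le_rfl
  have h2 : J ∪ Ico a (a + s) ∪ Ico (a + s) (a + s + s) = J ∪ Ico a (a + 2 * s) := by
    rw [Finset.union_assoc, Finset.Ico_union_Ico_eq_Ico (by omega) (by omega)]
    congr 2
    ring
  rwa [h2] at h1

lemma PB_interval (hp0 : 0 ≤ p) (hp1 : p ≤ 1) (s a G : ℕ) :
    PB p s (G * s) (Ico a (a + 2 * s * G)) := by
  induction G with
  | zero => simpa using PB_base hp0 hp1 s ∅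
  | succ G ih =>
    have h1 := PB_group hp0 hp1 (a := a + 2 * s * G) ih (by
      intro x hx
      exact (Finset.mem_Ico.1 hx).2)
    rw [Finset.Ico_union_Ico_eq_Ico (by omega) (by omega)] at h1
    have e1 : G * s + s = (G + 1) * s := by ring
    have e2 : a + 2 * s * G + 2 * s = a + 2 * s * (G + 1) := by ring
    rwa [e1, e2] at h1

end Pool.Agent.MP_a40b8c_co
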